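import Pool.Agent.Q40.CL.Ineq

set_option autoImplicit false

/-! Limits. -/

namespace Q40.CL

open Finset Filter Topology

/-- `∏_{i ≥ 1} (1 - p^{-i})` -/
noncomputable def cInf (p : ℕ) : ℝ := ∏' i : ℕ, (1 - ((p : ℝ)⁻¹) ^ (i + 1))

section lim

variable {p : ℕ} (hp : p.Prime)

include hp

lemma summable_pow : Summable (fun i : ℕ => ‖-(((p : ℝ)⁻¹) ^ (i + 1))‖) := by
  have h1 : (1 : ℝ) < p := by exact_mod_cast hp.one_lt
  have h2 : ((p : ℝ)⁻¹) < 1 := inv_lt_one_of_one_lt₀ h1
  have h3 : 0 ≤ ((p : ℝ)⁻¹) := by positivity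
  have h4 : Summable (fun i : ℕ => ((p : ℝ)⁻¹) ^ i) := summable_geometric_of_lt_one h3 h2
  have h5 := h4.mul_left ((p : ℝ)⁻¹)
  refine h5.congr (fun i => ?_)
  rw [norm_neg, Real.norm_of_nonneg (by positivity), pow_succ']

lemma qq_tendsto : Tendsto (fun n => qq p n) atTop (𝓝 (cInf p)) := by
  have h1 := multipliable_one_add_of_summable (summable_pow hp)
  have h2 := h1.hasProd.tendsto_prod_nat
  simp_rw [← sub_eq_add_neg] at h2
  exact h2

lemma cInf_ne_zero : cInf p ≠ 0 := by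
  have h := tprod_one_add_ne_zero_of_summable (f := fun i : ℕ => -(((p : ℝ)⁻¹) ^ (i + 1)))
    (fun i => by
      rw [← sub_eq_add_neg]
      exact (one_sub_pow_pos hp i).ne') (summable_pow hp)
  simp_rw [← sub_eq_add_neg] at h
  exact h

end lim

section gen

variable (G : Type) [AddCommGroup G] [Finite G]

lemma avg_mem_sub (R : ℕ) (H : AddSubgroup G) :
    avg (fun c : Fin R → G => ind (∀ i, c i ∈ H)) = ((Nat.card H : ℝ) / Nat.card G) ^ R := by
  rw [avg_ind, Nat.card_fun, Nat.card_eq_fintype_card (α := Fin R), Fintype.card_fin, div_pow,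
    Nat.cast_pow]
  congr 1
  rw [← Nat.cast_pow, Nat.cast_inj]
  have h1 : Nat.card (Fin R → H) = Nat.card H ^ R := by
    rw [Nat.card_fun, Nat.card_eq_fintype_card (α := Fin R), Fintype.card_fin]
  rw [← h1]
  apply Nat.card_congr
  exact ⟨fun c i => ⟨c.1 i, c.2 i⟩, fun c => ⟨fun i => c i, fun i => (c i).2⟩, fun c => rfl,
    fun c => rfl⟩

lemma avg_sum {A ι : Type*} [Finite A] (s : Finset ι) (f : ι → A → ℝ) :
    avg (fun a => ∑ i ∈ s, f i a) = ∑ i ∈ s, avg (f i) := by
  let _ := Fintype.ofFinite A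
  rw [avg_def, Finset.sum_comm, Finset.sum_div]
  exact Finset.sum_congr rfl (fun i _ => (avg_def _).symm)

/-- a large random tuple generates the group -/
lemma gen_tendsto : Tendsto (fun R : ℕ => pr (fun _ : Fin R => (⊤ : AddSubgroup G)) Gen) atTop
    (𝓝 1) := by
  classical
  let _ := Fintype.ofFinite (AddSubgroup G)
  let s : Finset (AddSubgroup G) := Finset.univ.filter (fun H => H ≠ ⊤)
  have h1 : Tendsto (fun R : ℕ => 1 - ∑ H ∈ s, ((Nat.card H : ℝ) / Nat.card G) ^ R) atTop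
      (𝓝 1) := by
    have h2 : Tendsto (fun R : ℕ => ∑ H ∈ s, ((Nat.card H : ℝ) / Nat.card G) ^ R) atTop
        (𝓝 (∑ H ∈ s, 0)) := by
      apply tendsto_finsetSum
      intro H hH
      have hG : (0 : ℝ) < Nat.card G := by exact_mod_cast Nat.card_pos
      apply tendsto_pow_atTop_nhds_zero_of_lt_one
      · positivity
      · rw [div_lt_one hG]
        have h3 : Nat.card H ≠ Nat.card G := by
          intro h
          exact (Finset.mem_filter.1 hH).2 (AddSubgroup.eq_top_of_card_eq _ h)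
        exact_mod_cast lt_of_le_of_ne (AddSubgroup.card_le_card_addGroup H) h3
    rw [Finset.sum_const_zero] at h2
    simpa using h2.const_sub 1
  refine tendsto_of_tendsto_of_tendsto_of_le_of_le h1 tendsto_const_nhds ?_ (fun R => pr_le_one _ _)
  intro R
  change 1 - ∑ H ∈ s, ((Nat.card H : ℝ) / Nat.card G) ^ R ≤ pr (fun _ : Fin R => ⊤) Gen
  rw [pr_top_eq]
  simp_rw [← avg_mem_sub]
  rw [← avg_sum, ← avg_const (A := Fin R → G) 1, ← avg_sub]
  apply avg_mono
  intro c
  by_cases hc : Gen c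
  · rw [ind_true hc, sub_le_self_iff]
    exact Finset.sum_nonneg (fun H _ => ind_nonneg _)
  · rw [ind_false hc, sub_nonpos]
    have h3 : AddSubgroup.closure (Set.range c) ∈ s := Finset.mem_filter.2 ⟨Finset.mem_univ _, hc⟩
    refine le_trans ?_ (Finset.single_le_sum (f := fun H : AddSubgroup G => ind (∀ i, c i ∈ H))
      (fun H _ => ind_nonneg _) h3)
    have h4 : ∀ i, c i ∈ AddSubgroup.closure (Set.range c) := fun i =>
      AddSubgroup.subset_closure ⟨i, rfl⟩
    rw [ind_true h4]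

end gen

section fin

variable {p : ℕ} [Fact p.Prime] (M : ℕ) {G : Type} [AddCommGroup G] [Finite G]
  (hG : ∀ g : G, p ^ M • g = 0)

include hG

lemma fR_tendsto : Tendsto (fun r => fR p M r G) atTop (𝓝 (cInf p / Nat.card (G ≃+ G))) := by
  have hp : p.Prime := Fact.out
  have hfin := finite_equiv G G
  have h0 : (Nat.card (G ≃+ G) : ℝ) ≠ 0 := by
    rw [Nat.cast_ne_zero]; exact Nat.card_pos.ne'
  have h1 : ∀ r, fR p M r G = qq p r * pr (fun _ : Fin r => (⊤ : AddSubgroup G)) Gen /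
      Nat.card (G ≃+ G) := by
    intro r
    rw [eq_div_iff h0, ← friedman_washington M r hG]
    rfl
  simp_rw [h1]
  have h2 := (qq_tendsto hp).mul (gen_tendsto G)
  rw [mul_one] at h2
  exact h2.div_const _

/-- The deterministic form of the main theorem. -/
theorem main_lim (T : (n : ℕ) → Fin n → AddSubgroup (Fr p M n))
    (h : Tendsto (fun n => prc (T n) (fun K => K = ⊤)) atTop (𝓝 (cInf p))) :
    Tendsto (fun n => prc (T n) (fun K => Nonempty (Fr p M n ⧸ K ≃+ G))) atTop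
      (𝓝 (cInf p / Nat.card (G ≃+ G))) := by
  have hp : p.Prime := Fact.out
  rw [Metric.tendsto_atTop]
  intro ε hε
  -- choose `r`
  have h1 : Tendsto (fun r => 1 - cInf p / qq p (r + 1)) atTop (𝓝 0) := by
    have h2 : Tendsto (fun r => cInf p / qq p (r + 1)) atTop (𝓝 (cInf p / cInf p)) :=
      tendsto_const_nhds.div ((qq_tendsto hp).comp (tendsto_add_atTop_nat 1)) (cInf_ne_zero hp)
    rw [div_self (cInf_ne_zero hp)] at h2
    simpa using h2.const_sub 1
  have h3 : Tendsto (fun r => fR p M (r + 1) G) atTop (𝓝 (cInf p / Nat.card (G ≃+ G))) :=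
    (fR_tendsto M hG).comp (tendsto_add_atTop_nat 1)
  obtain ⟨r, hr1, hr2⟩ := ((h1.eventually (gt_mem_nhds (by positivity : (0:ℝ) < ε / 4))).and
    ((Metric.tendsto_nhds.1 h3) (ε / 4) (by positivity))).exists
  -- let `n → ∞`
  set gap := qq p r * (((p : ℝ)⁻¹) ^ r - ((p : ℝ)⁻¹) ^ (r + 1)) with hgap
  have h4 : Tendsto (fun n => 1 - prc (T n) (fun K => K = ⊤) / qq p (r + 1) +
      (qq p n - prc (T n) (fun K => K = ⊤)) / gap) atTop
      (𝓝 (1 - cInf p / qq p (r + 1) + (cInf p - cInf p) / gap)) :=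
    ((h.div_const _).const_sub 1).add (((qq_tendsto hp).sub h).div_const _)
  rw [sub_self, zero_div, add_zero] at h4
  obtain ⟨n₀, hn₀⟩ := eventually_atTop.1 (h4.eventually (gt_mem_nhds hr1))
  refine ⟨max n₀ (r + 1), fun n hn => ?_⟩
  obtain ⟨m, rfl⟩ : ∃ m, n = m + (r + 1) := ⟨n - (r + 1), by
    have := le_trans (le_max_right n₀ (r + 1)) hn
    omega⟩
  have h5 := hn₀ _ (le_trans (le_max_left _ _) hn)
  have h6 := main_ineq M m r (T (m + (r + 1))) G
  have h7 : |fR p M (r + 1) G - cInf p / Nat.card (G ≃+ G)| < ε / 4 := hr2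
  rw [Real.dist_eq]
  have h8 := abs_sub_le (prc (T (m + (r + 1)))
    (fun K => Nonempty (Fr p M (m + (r + 1)) ⧸ K ≃+ G))) (fR p M (r + 1) G)
    (cInf p / Nat.card (G ≃+ G))
  linarith

end fin

end Q40.CL
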