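import Pool.Agent.Q40.CL.Defs
import Pool.Agent.Q40.CL.Lim

set_option autoImplicit false

/-! The cokernel and reduction modulo `p ^ (M + 1)`. -/

namespace Q40.CL

open Submodule

variable {p : ℕ} [Fact p.Prime] (M : ℕ) {n : ℕ} (X : Fin n → Fin n → ℤ_[p])

/-- the columns of the reduction -/
noncomputable def red (j : Fin n) : Fr p M n := fun i => PadicInt.toZModPow (M + 1) (X i j)

/-- reduction -/
noncomputable def rho (p M n : ℕ) [Fact p.Prime] : (Fin n → ℤ_[p]) →+ Fr p M n where
  toFun v i := PadicInt.toZModPow (M + 1) (v i)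
  map_zero' := by funext i; exact map_zero _
  map_add' v w := by funext i; exact map_add _ _ _

lemma rho_apply (v : Fin n → ℤ_[p]) (i : Fin n) :
    rho p M n v i = PadicInt.toZModPow (M + 1) (v i) := rfl

lemma rho_surjective : Function.Surjective (rho p M n) := by
  intro w
  have h : ∀ i, ∃ a : ℤ_[p], PadicInt.toZModPow (M + 1) a = w i :=
    fun i => ZMod.ringHom_surjective (PadicInt.toZModPow (M + 1)) (w i)
  choose v hv using h
  exact ⟨v, funext hv⟩

lemma rho_ker (v : Fin n → ℤ_[p]) (h : rho p M n v = 0) : ∃ w, v = p ^ (M + 1) • w := by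
  have h1 : ∀ i, ∃ a : ℤ_[p], v i = p ^ (M + 1) • a := by
    intro i
    have h2 : v i ∈ RingHom.ker (PadicInt.toZModPow (M + 1) : ℤ_[p] →+* ZMod (p ^ (M + 1))) :=
      congrFun h i
    rw [PadicInt.ker_toZModPow, Ideal.mem_span_singleton] at h2
    obtain ⟨a, ha⟩ := h2
    refine ⟨a, ?_⟩
    rw [ha, nsmul_eq_mul]
    push_cast
    rfl
  choose w hw using h1
  exact ⟨w, funext hw⟩

/-- the image of the map given by the matrix -/
noncomputable def LL : Submodule ℤ_[p] (Fin n → ℤ_[p]) := LinearMap.range (Matrix.of X).mulVecLin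

lemma LL_eq : LL X = span ℤ_[p] (Set.range (fun j : Fin n => fun i : Fin n => X i j)) := by
  unfold LL
  rw [Matrix.range_mulVecLin]
  rfl

lemma rho_mem (x : Fin n → ℤ_[p]) (hx : x ∈ LL X) :
    rho p M n x ∈ AddSubgroup.closure (Set.range (red M X)) := by
  rw [LL_eq] at hx
  induction hx using Submodule.span_induction with
  | mem x hx =>
    obtain ⟨j, rfl⟩ := hx
    exact AddSubgroup.subset_closure ⟨j, rfl⟩
  | zero => rw [map_zero]; exact zero_mem _
  | add x y _ _ hx hy => rw [map_add]; exact add_mem hx hy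
  | smul a x _ hx =>
    obtain ⟨z, hz⟩ := ZMod.intCast_surjective (PadicInt.toZModPow (M + 1) a)
    have h : rho p M n (a • x) = z • rho p M n x := by
      funext i
      rw [rho_apply, Pi.smul_apply, smul_eq_mul, map_mul, ← hz, Pi.smul_apply, zsmul_eq_mul,
        rho_apply]
    rw [h]
    exact AddSubgroup.zsmul_mem _ hx _

lemma exists_of_mem (y : Fr p M n) (hy : y ∈ AddSubgroup.closure (Set.range (red M X))) :
    ∃ x ∈ LL X, rho p M n x = y := by
  have h : AddSubgroup.closure (Set.range (red M X)) ≤ (LL X).toAddSubgroup.map (rho p M n) := by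
    rw [AddSubgroup.closure_le]
    rintro _ ⟨j, rfl⟩
    refine ⟨fun i => X i j, ?_, rfl⟩
    change (fun i => X i j) ∈ LL X
    rw [LL_eq]
    exact subset_span ⟨j, rfl⟩
  obtain ⟨x, hx, hxy⟩ := h hy
  exact ⟨x, hx, hxy⟩

/-- the map to the cokernel of the reduction -/
noncomputable def phi : (Fin n → ℤ_[p]) →+
    Fr p M n ⧸ AddSubgroup.closure (Set.range (red M X)) :=
  (QuotientAddGroup.mk' _).comp (rho p M n)

lemma phi_surjective : Function.Surjective (phi M X) :=
  (QuotientAddGroup.mk'_surjective _).comp (rho_surjective M)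

lemma phi_eq_zero_iff (x : Fin n → ℤ_[p]) : phi M X x = 0 ↔ ∃ y ∈ LL X, ∃ z, x = y + p ^ (M + 1) • z := by
  constructor
  · intro h
    have h1 : rho p M n x ∈ AddSubgroup.closure (Set.range (red M X)) :=
      (QuotientAddGroup.eq_zero_iff _).1 h
    obtain ⟨y, hy, hxy⟩ := exists_of_mem M X _ h1
    obtain ⟨z, hz⟩ := rho_ker M (x - y) (by rw [map_sub, hxy, sub_self])
    exact ⟨y, hy, z, by rw [← hz]; abel⟩
  · rintro ⟨y, hy, z, rfl⟩
    rw [map_add, map_nsmul]
    have h1 : phi M X y = 0 := (QuotientAddGroup.eq_zero_iff _).2 (rho_mem M X y hy)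
    have h2 : p ^ (M + 1) • phi M X z = 0 := by
      rw [← map_nsmul]
      change QuotientAddGroup.mk' _ (rho p M n _) = 0
      rw [map_nsmul, free_pow, map_zero]
    rw [h1, h2, add_zero]

lemma cok_iso (h : ∀ x : Fin n → ℤ_[p], p ^ (M + 1) • x ∈ LL X) :
    Nonempty (cok X ≃+ Fr p M n ⧸ AddSubgroup.closure (Set.range (red M X))) := by
  have hk : ∀ x, phi M X x = 0 ↔ x ∈ LL X := by
    intro x
    rw [phi_eq_zero_iff]
    constructor
    · rintro ⟨y, hy, z, rfl⟩
      exact add_mem hy (h z)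
    · intro hx
      exact ⟨x, hx, 0, by rw [smul_zero, add_zero]⟩
  let f : (Fin n → ℤ_[p]) ⧸ (LL X).toAddSubgroup →+
      Fr p M n ⧸ AddSubgroup.closure (Set.range (red M X)) :=
    QuotientAddGroup.lift (LL X).toAddSubgroup (phi M X) (fun x hx => (hk x).2 hx)
  have hf : Function.Bijective f := by
    constructor
    · rw [injective_iff_map_eq_zero]
      intro y hy
      obtain ⟨x, rfl⟩ := QuotientAddGroup.mk_surjective y
      exact (QuotientAddGroup.eq_zero_iff _).2 ((hk x).1 hy)
    · intro y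
      obtain ⟨x, rfl⟩ := phi_surjective M X y
      exact ⟨QuotientAddGroup.mk x, rfl⟩
  exact ⟨AddEquiv.ofBijective f hf⟩

lemma cok_iff {G : Type} [AddCommGroup G] (hG : ∀ g : G, p ^ M • g = 0) :
    Nonempty (cok X ≃+ G) ↔
      Nonempty (Fr p M n ⧸ AddSubgroup.closure (Set.range (red M X)) ≃+ G) := by
  constructor
  · rintro ⟨e⟩
    obtain ⟨f⟩ := cok_iso M X (fun x => by
      have h1 : p ^ M • (Submodule.Quotient.mk x : cok X) = 0 := by
        apply e.injective
        rw [map_nsmul, map_zero, hG]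
      have h2 : (Submodule.Quotient.mk (p ^ M • x) : cok X) = 0 := h1
      have h3 : p ^ M • x ∈ LL X := (Submodule.Quotient.mk_eq_zero _).1 h2
      rw [pow_succ', mul_smul]
      exact (LL X).nsmul_mem h3 p)
    exact ⟨f.symm.trans e⟩
  · rintro ⟨e⟩
    let N' : Submodule ℤ_[p] (Fin n → ℤ_[p]) :=
      LinearMap.range (LinearMap.lsmul ℤ_[p] (Fin n → ℤ_[p]) ((p : ℤ_[p]) ^ M))
    have hN : N' ≤ LL X := by
      apply Submodule.le_of_le_smul_of_le_jacobson_bot (I := Ideal.span {(p : ℤ_[p])})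
        (IsNoetherian.noetherian N')
      · rw [← PadicInt.maximalIdeal_eq_span_p]
        exact (IsLocalRing.jacobson_eq_maximalIdeal ⊥ bot_ne_top).ge
      · rintro _ ⟨x, rfl⟩
        have h1 : phi M X (p ^ M • x) = 0 := by
          apply e.injective
          rw [map_nsmul, map_nsmul, hG, map_zero]
        obtain ⟨y, hy, z, hz⟩ := (phi_eq_zero_iff M X _).1 h1
        have h2 : (LinearMap.lsmul ℤ_[p] (Fin n → ℤ_[p]) ((p : ℤ_[p]) ^ M)) x = p ^ M • x := by
          rw [LinearMap.lsmul_apply, ← Nat.cast_pow, Nat.cast_smul_eq_nsmul]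
        have h3 : p ^ (M + 1) • z = (p : ℤ_[p]) • ((LinearMap.lsmul ℤ_[p] (Fin n → ℤ_[p])
            ((p : ℤ_[p]) ^ M)) z) := by
          rw [LinearMap.lsmul_apply, smul_smul, ← pow_succ', ← Nat.cast_pow,
            Nat.cast_smul_eq_nsmul]
        rw [h2, hz, h3]
        exact Submodule.add_mem_sup hy (Submodule.smul_mem_smul
          (Ideal.mem_span_singleton_self _) ⟨z, rfl⟩)
    obtain ⟨f⟩ := cok_iso M X (fun x => by
      have h3 : p ^ M • x ∈ LL X := hN ⟨x, by
        rw [LinearMap.lsmul_apply, ← Nat.cast_pow, Nat.cast_smul_eq_nsmul]⟩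
      rw [pow_succ', mul_smul]
      exact (LL X).nsmul_mem h3 p)
    exact ⟨f.trans e⟩

lemma quot_trivial_iff {W : Type*} [AddCommGroup W] (K : AddSubgroup W) :
    Nonempty (W ⧸ K ≃+ PUnit.{1}) ↔ K = ⊤ := by
  constructor
  · rintro ⟨e⟩
    rw [eq_top_iff]
    intro x _
    have h : (QuotientAddGroup.mk x : W ⧸ K) = 0 := e.injective (Subsingleton.elim _ _)
    exact (QuotientAddGroup.eq_zero_iff _).1 h
  · rintro rfl
    have : Subsingleton (W ⧸ (⊤ : AddSubgroup W)) := QuotientAddGroup.subsingleton_quotient_top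
    exact ⟨{ toFun := fun _ => PUnit.unit, invFun := fun _ => 0,
             left_inv := fun _ => Subsingleton.elim _ _,
             right_inv := fun _ => rfl, map_add' := fun _ _ => rfl }⟩

lemma cok_trivial_iff : Nonempty (cok X ≃+ PUnit.{1}) ↔ (redMod X).det ≠ 0 := by
  have h1 : Nonempty (cok X ≃+ PUnit.{1}) ↔ LL X = ⊤ := by
    constructor
    · rintro ⟨e⟩
      rw [eq_top_iff]
      intro x _
      have h : (Submodule.Quotient.mk x : cok X) = 0 := e.injective (Subsingleton.elim _ _)
      exact (Submodule.Quotient.mk_eq_zero _).1 h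
    · intro h
      have : Subsingleton (cok X) := Submodule.Quotient.subsingleton_iff.2 h
      exact ⟨{ toFun := fun _ => PUnit.unit, invFun := fun _ => 0,
               left_inv := fun _ => Subsingleton.elim _ _,
               right_inv := fun _ => rfl, map_add' := fun _ _ => rfl }⟩
  rw [h1]
  unfold LL
  rw [LinearMap.range_eq_top]
  have h2 : Function.Surjective (Matrix.of X).mulVecLin ↔ IsUnit (Matrix.of X) :=
    Matrix.mulVec_surjective_iff_isUnit
  rw [h2, Matrix.isUnit_iff_isUnit_det]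
  have h3 : (redMod X).det = PadicInt.toZMod (Matrix.of X).det := by
    unfold redMod
    rw [RingHom.map_det]
    rfl
  rw [h3, Ne, ← RingHom.mem_ker, PadicInt.ker_toZMod, IsLocalRing.mem_maximalIdeal,
    mem_nonunits_iff, not_not]

/-- generation and the determinant -/
lemma closure_top_iff : AddSubgroup.closure (Set.range (red M X)) = ⊤ ↔ (redMod X).det ≠ 0 := by
  rw [← quot_trivial_iff, ← cok_trivial_iff, cok_iff M X (fun g => Subsingleton.elim _ _)]

end Q40.CL
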