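import Mathlib

set_option autoImplicit false

/-! Averages over finite types. -/

namespace Q40.CL

open Finset

/-- the average of a function on a finite type -/
noncomputable def avg {A : Type*} [Finite A] (f : A → ℝ) : ℝ :=
  letI := Fintype.ofFinite A
  (∑ a, f a) / Nat.card A

lemma avg_def {A : Type*} [Fintype A] (f : A → ℝ) : avg f = (∑ a, f a) / Nat.card A := by
  unfold avg
  congr 1
  apply Finset.sum_congr _ (fun _ _ => rfl)
  ext
  simp

section

variable {A B : Type*} [Finite A] [Finite B]

lemma avg_equiv (e : A ≃ B) (f : B → ℝ) : avg (fun a => f (e a)) = avg f := by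
  let _ := Fintype.ofFinite A
  let _ := Fintype.ofFinite B
  rw [avg_def, avg_def, Nat.card_congr e, Equiv.sum_comp e f]

lemma avg_prod (f : A × B → ℝ) : avg f = avg (fun a => avg (fun b => f (a, b))) := by
  let _ := Fintype.ofFinite A
  let _ := Fintype.ofFinite B
  rw [avg_def, avg_def, Nat.card_prod, Fintype.sum_prod_type, Nat.cast_mul]
  simp_rw [avg_def]
  rw [← Finset.sum_div, div_div, mul_comm (Nat.card B : ℝ)]

lemma avg_mono {f g : A → ℝ} (h : ∀ a, f a ≤ g a) : avg f ≤ avg g := by
  let _ := Fintype.ofFinite A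
  rw [avg_def, avg_def]
  exact div_le_div_of_nonneg_right (Finset.sum_le_sum (fun a _ => h a)) (Nat.cast_nonneg _)

lemma avg_const [Nonempty A] (c : ℝ) : avg (fun _ : A => c) = c := by
  let _ := Fintype.ofFinite A
  rw [avg_def, Finset.sum_const, Finset.card_univ, ← Nat.card_eq_fintype_card, nsmul_eq_mul]
  have h : (Nat.card A : ℝ) ≠ 0 := by
    rw [Nat.cast_ne_zero]
    exact Nat.card_pos.ne'
  field_simp

lemma avg_add (f g : A → ℝ) : avg (fun a => f a + g a) = avg f + avg g := by
  let _ := Fintype.ofFinite A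
  rw [avg_def, avg_def, avg_def, Finset.sum_add_distrib, add_div]

lemma avg_sub (f g : A → ℝ) : avg (fun a => f a - g a) = avg f - avg g := by
  let _ := Fintype.ofFinite A
  rw [avg_def, avg_def, avg_def, Finset.sum_sub_distrib, sub_div]

lemma avg_mul (c : ℝ) (f : A → ℝ) : avg (fun a => c * f a) = c * avg f := by
  let _ := Fintype.ofFinite A
  rw [avg_def, avg_def, ← Finset.mul_sum, mul_div_assoc]

lemma avg_nonneg {f : A → ℝ} (h : ∀ a, 0 ≤ f a) : 0 ≤ avg f := by
  let _ := Fintype.ofFinite A
  rw [avg_def]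
  exact div_nonneg (Finset.sum_nonneg (fun a _ => h a)) (Nat.cast_nonneg _)

lemma avg_congr {f g : A → ℝ} (h : ∀ a, f a = g a) : avg f = avg g := by
  rw [show f = g from funext h]

end

/-- indicator of a proposition -/
noncomputable def ind (P : Prop) : ℝ := by
  classical exact if P then 1 else 0

lemma ind_true {P : Prop} (h : P) : ind P = 1 := by
  unfold ind; rw [if_pos h]

lemma ind_false {P : Prop} (h : ¬ P) : ind P = 0 := by
  unfold ind; rw [if_neg h]

lemma ind_nonneg (P : Prop) : 0 ≤ ind P := by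
  by_cases h : P
  · rw [ind_true h]; exact zero_le_one
  · rw [ind_false h]

lemma ind_le_one (P : Prop) : ind P ≤ 1 := by
  by_cases h : P
  · rw [ind_true h]
  · rw [ind_false h]; exact zero_le_one

lemma ind_congr {P Q : Prop} (h : P ↔ Q) : ind P = ind Q := by
  rw [propext h]

lemma avg_ind {A : Type*} [Finite A] (P : A → Prop) :
    avg (fun a => ind (P a)) = Nat.card {a // P a} / Nat.card A := by
  classical
  let _ := Fintype.ofFinite A
  rw [avg_def]
  congr 1
  unfold ind
  rw [Finset.sum_ite, Finset.sum_const_zero, add_zero, Finset.sum_const, nsmul_eq_mul, mul_one,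
    Nat.card_eq_fintype_card, Fintype.card_subtype]

lemma avg_surj {A B : Type*} [AddGroup A] [AddGroup B] [Finite A] [Finite B] (F : A →+ B)
    (hF : Function.Surjective F) (f : B → ℝ) : avg (fun a => f (F a)) = avg f := by
  classical
  let _ := Fintype.ofFinite A
  let _ := Fintype.ofFinite B
  have hfib : ∀ b, (Finset.univ.filter (fun a => F a = b)).card = Nat.card F.ker := by
    intro b
    obtain ⟨a₀, rfl⟩ := hF b
    rw [Nat.card_eq_fintype_card, ← Fintype.card_subtype]
    apply Fintype.card_congr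
    refine ⟨fun x => ⟨x.1 - a₀, ?_⟩, fun x => ⟨x.1 + a₀, ?_⟩, ?_, ?_⟩
    · rw [AddMonoidHom.mem_ker, map_sub, x.2, sub_self]
    · rw [map_add, AddMonoidHom.mem_ker.1 x.2, zero_add]
    · intro x; simp
    · intro x; simp
  have hc : (Nat.card A : ℝ) = Nat.card B * Nat.card F.ker := by
    rw [← Nat.cast_mul, Nat.cast_inj, Nat.card_eq_fintype_card (α := A),
      Nat.card_eq_fintype_card (α := B), ← Finset.card_univ,
      Finset.card_eq_sum_card_fiberwise (f := F) (t := Finset.univ) (fun _ _ => Finset.mem_univ _)]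
    simp_rw [hfib]
    rw [Finset.sum_const, Finset.card_univ, smul_eq_mul]
  have hk : (Nat.card F.ker : ℝ) ≠ 0 := by
    rw [Nat.cast_ne_zero]
    exact Nat.card_pos.ne'
  have hs : ∑ a, f (F a) = Nat.card F.ker * ∑ b, f b := by
    rw [← Finset.sum_fiberwise_of_maps_to (g := F) (t := Finset.univ)
      (fun _ _ => Finset.mem_univ _), Finset.mul_sum]
    apply Finset.sum_congr rfl
    intro b _
    rw [Finset.sum_congr rfl (g := fun _ => f b) (fun a ha => by
      rw [(Finset.mem_filter.1 ha).2]), Finset.sum_const, hfib, nsmul_eq_mul]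
  rw [avg_def, avg_def, hs, hc, mul_comm (Nat.card B : ℝ)]
  exact mul_div_mul_left _ _ hk

end Q40.CL
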