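import Pool.Agent.Q40.CL.Split

set_option autoImplicit false

/-! The main inequality. -/

namespace Q40.CL

open Finset

section core

variable {p : ℕ} [Fact p.Prime] (M m r : ℕ)

/-- the free module of rank `n` over `ℤ / p ^ (M + 1)` -/
abbrev Fr (p M n : ℕ) : Type := Fin n → ZMod (p ^ (M + 1))

lemma card_Fr (n : ℕ) : Nat.card (Fr p M n) = (p ^ (M + 1)) ^ n := by
  rw [Nat.card_fun, Nat.card_zmod, Nat.card_eq_fintype_card (α := Fin n), Fintype.card_fin]

/-- the quotient by the first columns is free -/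
def EE {Q : Type*} [AddCommGroup Q] (p M r : ℕ) (H : AddSubgroup Q) : Prop :=
  Nonempty (Q ⧸ H ≃+ Fr p M r)

/-- every other column is free in the quotient -/
def FF {Q ι : Type*} [AddCommGroup Q] (T : ι → AddSubgroup Q) (H : AddSubgroup Q) : Prop :=
  ∀ j, (T j).map (QuotientAddGroup.mk' H) = ⊤

/-- probability of generation given the first columns -/
noncomputable def gv {Q ι : Type*} [AddCommGroup Q] [Finite Q] [Finite ι] (T : ι → AddSubgroup Q)
    (H : AddSubgroup Q) : ℝ :=
  prc (fun j => (T j).map (QuotientAddGroup.mk' H)) (fun K => K = ⊤)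

/-- probability that the cokernel is `G` given the first columns -/
noncomputable def cv {Q ι : Type*} [AddCommGroup Q] [Finite Q] [Finite ι] (T : ι → AddSubgroup Q)
    (G : Type) [AddCommGroup G] (H : AddSubgroup Q) : ℝ :=
  prc (fun j => (T j).map (QuotientAddGroup.mk' H)) (fun K => Nonempty ((Q ⧸ H) ⧸ K ≃+ G))

/-- the limit law, for square matrices over `ℤ / p ^ (M + 1)` -/
noncomputable def fR (p M r : ℕ) [Fact p.Prime] (G : Type) [AddCommGroup G] : ℝ :=
  prc (fun _ : Fin r => (⊤ : AddSubgroup (Fr p M r))) (fun K => Nonempty (Fr p M r ⧸ K ≃+ G))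

lemma gv_full {Q : Type*} [AddCommGroup Q] [Finite Q] (T : Fin r → AddSubgroup Q)
    (H : AddSubgroup Q) (hE : EE p M r H) (hF : FF T H) : gv T H = qq p r := by
  unfold gv
  rw [show (fun j => (T j).map (QuotientAddGroup.mk' H)) =
    fun _ : Fin r => (⊤ : AddSubgroup (Q ⧸ H)) from funext hF]
  obtain ⟨e⟩ := hE
  rw [prc_equiv e.symm]
  have h1 : ∀ K : AddSubgroup (Fr p M r), K.map e.symm.toAddMonoidHom = ⊤ ↔ K = ⊤ := by
    intro K
    constructor
    · intro h
      have h2 := AddSubgroup.map_top_of_surjective e.symm.toAddMonoidHom e.symm.surjective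
      rw [← h2] at h
      exact AddSubgroup.map_injective (f := e.symm.toAddMonoidHom) e.symm.injective h
    · rintro rfl
      exact AddSubgroup.map_top_of_surjective _ e.symm.surjective
  simp_rw [h1]
  exact prob_gen_top (Fact.out) (free_pow r) (card_free_quot (Nat.succ_pos M) r)

lemma cv_full {Q : Type*} [AddCommGroup Q] [Finite Q] (T : Fin r → AddSubgroup Q)
    (G : Type) [AddCommGroup G]
    (H : AddSubgroup Q) (hE : EE p M r H) (hF : FF T H) : cv T G H = fR p M r G := by
  unfold cv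
  rw [show (fun j => (T j).map (QuotientAddGroup.mk' H)) =
    fun _ : Fin r => (⊤ : AddSubgroup (Q ⧸ H)) from funext hF]
  obtain ⟨e⟩ := hE
  rw [prc_equiv e.symm]
  have h1 : ∀ K : AddSubgroup (Fr p M r),
      Nonempty ((Q ⧸ H) ⧸ K.map e.symm.toAddMonoidHom ≃+ G) ↔ Nonempty (Fr p M r ⧸ K ≃+ G) := by
    intro K
    have e1 : Fr p M r ⧸ K ≃+ (Q ⧸ H) ⧸ K.map e.symm.toAddMonoidHom :=
      QuotientAddGroup.congr K (K.map e.symm.toAddMonoidHom) e.symm rfl
    exact ⟨fun ⟨f⟩ => ⟨e1.trans f⟩, fun ⟨f⟩ => ⟨e1.symm.trans f⟩⟩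
  simp_rw [h1]
  rfl

lemma gv_lt {Q : Type*} [AddCommGroup Q] [Finite Q] (T : Fin (r + 1) → AddSubgroup Q)
    (H : AddSubgroup Q) (hE : EE p M (r + 1) H) (hF : ¬ FF T H) :
    gv T H ≤ qq p r * (1 - ((p : ℝ)⁻¹) ^ r) := by
  unfold FF at hF
  push Not at hF
  obtain ⟨j, hj⟩ := hF
  obtain ⟨e⟩ := hE
  have hp : p.Prime := Fact.out
  have h1 : ∀ x : Q ⧸ H, p ^ (M + 1) • x = 0 := by
    intro x
    apply e.injective
    rw [map_nsmul, map_zero]
    exact free_pow _ _
  refine prob_gen_lt hp h1 ?_ _ j hj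
  rw [← card_free_quot (Nat.succ_pos M) (r + 1)]
  apply Nat.card_congr
  have h2 : (pS p (Q ⧸ H)).map e.toAddMonoidHom = pS p (Fr p M (r + 1)) := by
    ext x
    constructor
    · rintro ⟨_, ⟨y, rfl⟩, rfl⟩
      exact ⟨e y, (map_nsmul e p y).symm⟩
    · rintro ⟨y, rfl⟩
      refine ⟨p • e.symm y, mem_pS _, ?_⟩
      change e (p • e.symm y) = _
      rw [map_nsmul, AddEquiv.apply_symm_apply]
      rfl
  exact (QuotientAddGroup.congr _ _ e h2).toEquiv

lemma gv_zero (T : Fin r → AddSubgroup (Fr p M (m + r))) (a : Fin m → Fr p M (m + r))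
    (hE : ¬ EE p M r (AddSubgroup.closure (Set.range a))) :
    gv T (AddSubgroup.closure (Set.range a)) = 0 := by
  set H := AddSubgroup.closure (Set.range a) with hH
  unfold gv
  have h1 : ∀ b : (j : Fin r) → (T j).map (QuotientAddGroup.mk' H),
      ind (AddSubgroup.closure (Set.range (fun j => (b j : Fr p M (m + r) ⧸ H))) = ⊤) = 0 := by
    intro b
    apply ind_false
    intro hb
    apply hE
    have hQ : ∀ x : Fr p M (m + r) ⧸ H, p ^ (M + 1) • x = 0 := by
      intro x
      obtain ⟨y, rfl⟩ := QuotientAddGroup.mk_surjective x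
      rw [← QuotientAddGroup.mk_nsmul, free_pow]
      rfl
    let F := fl (p ^ (M + 1)) (fun j => (b j : Fr p M (m + r) ⧸ H)) (fun j => hQ _)
    have hF : Function.Surjective F := by
      rw [← AddMonoidHom.range_eq_top, fl_range]
      exact hb
    have h2 : Nat.card H ≤ (p ^ (M + 1)) ^ m := by
      have h3 := card_closure_le (p ^ (M + 1)) a (fun i => free_pow _ _)
      rwa [Fintype.card_fin] at h3
    have h4 := AddSubgroup.card_eq_card_quotient_mul_card_addSubgroup H
    rw [card_Fr, pow_add, mul_comm] at h4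
    have h5 : Nat.card (Fr p M r) ≤ Nat.card (Fr p M (m + r) ⧸ H) := by
      rw [card_Fr]
      have h6 : 0 < (p ^ (M + 1)) ^ m := pow_pos (pow_pos (Fact.out : p.Prime).pos _) _
      by_contra hlt
      push Not at hlt
      have h7 : Nat.card (Fr p M (m + r) ⧸ H) * Nat.card H < (p ^ (M + 1)) ^ r * (p ^ (M + 1)) ^ m :=
        calc _ ≤ Nat.card (Fr p M (m + r) ⧸ H) * (p ^ (M + 1)) ^ m := Nat.mul_le_mul_left _ h2
          _ < _ := Nat.mul_lt_mul_of_pos_right hlt h6
      rw [h4] at h7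
      exact lt_irrefl _ h7
    have h8 : Function.Bijective F := by
      refine (Function.Surjective.bijective_of_nat_card_le hF h5)
    exact ⟨(AddEquiv.ofBijective F h8).symm⟩
  unfold prc pr
  rw [avg_congr h1]
  exact avg_const 0

end core

end Q40.CL
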