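import Mathlib

set_option autoImplicit false

/-!
# Haar-random matrices over the `p`-adic integers with a prescribed support

The definitions for the rank-zero criterion for Cohen-Lenstra limits.
-/

namespace Q40.CL

open MeasureTheory

variable (p : ℕ) [Fact p.Prime]

/-- The Haar probability measure on `ℤ_[p]`: the additive Haar measure with total mass `1`. -/
noncomputable def haarZp [MeasurableSpace ℤ_[p]] [BorelSpace ℤ_[p]] : Measure ℤ_[p] :=
  Measure.addHaarMeasure ⊤

open Classical in
/-- The law of the Haar-random `n × n` matrix supported on `σ`, where `σ j` is the support of the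
column `j`. The entries `X i j` are independent, `X i j` has Haar law if `i ∈ σ j`, and
`X i j = 0` otherwise. -/
noncomputable def law [MeasurableSpace ℤ_[p]] [BorelSpace ℤ_[p]] {n : ℕ}
    (σ : Fin n → Set (Fin n)) : Measure (Fin n → Fin n → ℤ_[p]) :=
  Measure.pi fun i => Measure.pi fun j => if i ∈ σ j then haarZp p else Measure.dirac 0

variable {p}

/-- The cokernel `ℤ_p ^ n / X ℤ_p ^ n` of the matrix `X`. -/
abbrev cok {n : ℕ} (X : Fin n → Fin n → ℤ_[p]) : Type :=
  (Fin n → ℤ_[p]) ⧸ LinearMap.range (Matrix.of X).mulVecLin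

/-- The reduction of the matrix `X` modulo `p`. -/
noncomputable def redMod {n : ℕ} (X : Fin n → Fin n → ℤ_[p]) : Matrix (Fin n) (Fin n) (ZMod p) :=
  (Matrix.of X).map PadicInt.toZMod

variable (p)

/-- The constant `c_p = ∏_{i ≥ 1} (1 - p ^ (-i))`. -/
noncomputable def cConst : ℝ := ∏' i : ℕ, (1 - ((p : ℝ)⁻¹) ^ (i + 1))

/-- The Cohen-Lenstra mass of the finite abelian group `G`. -/
noncomputable def clMass (G : Type) [AddCommGroup G] : ℝ := cConst p / Nat.card (G ≃+ G)

end Q40.CL
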