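import Pool.Agent.Q40.CL.Lft

set_option autoImplicit false

/-! Generation of elementary abelian groups by random elements. -/

namespace Q40.CL

open Finset

/-- `∏_{i=1}^{n} (1 - p^{-i})` -/
noncomputable def qq (p n : ℕ) : ℝ := ∏ i ∈ Finset.range n, (1 - ((p : ℝ)⁻¹) ^ (i + 1))

lemma qq_succ (p n : ℕ) : qq p (n + 1) = qq p n * (1 - ((p : ℝ)⁻¹) ^ (n + 1)) :=
  Finset.prod_range_succ _ _

lemma one_sub_pow_pos {p : ℕ} (hp : p.Prime) (n : ℕ) : 0 < 1 - ((p : ℝ)⁻¹) ^ (n + 1) := by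
  have h1 : (1 : ℝ) < p := by exact_mod_cast hp.one_lt
  have h2 : ((p : ℝ)⁻¹) < 1 := inv_lt_one_of_one_lt₀ h1
  have h3 : 0 ≤ ((p : ℝ)⁻¹) := by positivity
  have h4 : ((p : ℝ)⁻¹) ^ (n + 1) < 1 := pow_lt_one₀ h3 h2 (Nat.succ_ne_zero n)
  linarith

lemma qq_pos {p : ℕ} (hp : p.Prime) (n : ℕ) : 0 < qq p n :=
  Finset.prod_pos (fun i _ => one_sub_pow_pos hp i)

section elem

universe u

variable {p : ℕ} (hp : p.Prime)

include hp

lemma card_quot {Q : Type u} [AddCommGroup Q] [Finite Q] (hQ : ∀ x : Q, p • x = 0) {n : ℕ}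
    (hc : Nat.card Q = p ^ (n + 1)) {x : Q} (hx : x ≠ 0) :
    Nat.card (Q ⧸ AddSubgroup.zmultiples x) = p ^ n := by
  have : Fact p.Prime := ⟨hp⟩
  have h1 : Nat.card (AddSubgroup.zmultiples x) = p := by
    rw [Nat.card_zmultiples]
    exact addOrderOf_eq_prime (hQ x) hx
  have h2 := AddSubgroup.card_eq_card_quotient_mul_card_addSubgroup (AddSubgroup.zmultiples x)
  rw [h1, hc, pow_succ] at h2
  exact (Nat.eq_of_mul_eq_mul_right hp.pos h2).symm

omit hp in
lemma elem_quot {Q : Type u} [AddCommGroup Q] (hQ : ∀ x : Q, p • x = 0) (H : AddSubgroup Q)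
    (y : Q ⧸ H) : p • y = 0 := by
  obtain ⟨x, rfl⟩ := QuotientAddGroup.mk_surjective y
  rw [← QuotientAddGroup.mk_nsmul, hQ]
  rfl

/-- formula for the probability of generation -/
lemma pr_gen_formula {Q : Type u} [AddCommGroup Q] [Finite Q] (hQ : ∀ x : Q, p • x = 0) {n : ℕ}
    (hc : Nat.card Q = p ^ (n + 1)) (T : Fin (n + 1) → AddSubgroup Q) (j : Fin (n + 1)) :
    pr T Gen = avg (fun x : T j => ind (x ≠ 0) *
      pr (fun i => (T (j.succAbove i)).map (QuotientAddGroup.mk' (AddSubgroup.zmultiples (x : Q))))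
        Gen) := by
  have : NeZero p := ⟨hp.ne_zero⟩
  rw [pr_fin n T j]
  apply avg_congr
  rintro ⟨x, hx⟩
  have key : ∀ c : Fin n → Q, Gen (j.insertNth (α := fun _ => Q) x c) ↔
      AddSubgroup.closure (Set.range c) ⊔ AddSubgroup.zmultiples x = ⊤ := by
    intro c
    unfold Gen
    rw [Fin.range_insertNth]
    change AddSubgroup.closure (insert x (Set.range c)) = ⊤ ↔ _
    rw [Set.insert_eq, AddSubgroup.closure_union, sup_comm, AddSubgroup.zmultiples_eq_closure]
  by_cases h0 : x = 0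
  · have h1 : ind ((⟨x, hx⟩ : T j) ≠ 0) = 0 := by
      apply ind_false
      rw [not_not]
      exact Subtype.ext h0
    rw [h1, zero_mul]
    unfold pr
    have h2 : ∀ c : (i : Fin n) → T (j.succAbove i), ind (Gen (j.insertNth (α := fun _ => Q) x
        (fun i => (c i : Q)))) = 0 := by
      intro c
      apply ind_false
      rw [key, h0, AddSubgroup.zmultiples_zero_eq_bot, sup_bot_eq]
      intro h
      have h3 := card_closure_le p (fun i => (c i : Q)) (fun i => hQ _)
      rw [h, Nat.card_congr AddSubgroup.topEquiv.toEquiv, hc, Fintype.card_fin] at h3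
      exact absurd h3 (not_le.2 (Nat.pow_lt_pow_right hp.one_lt (Nat.lt_succ_self n)))
    rw [avg_congr h2]
    exact avg_const 0
  · have h1 : ind ((⟨x, hx⟩ : T j) ≠ 0) = 1 := by
      apply ind_true
      intro h
      exact h0 (congrArg Subtype.val h)
    rw [h1, one_mul]
    change _ = pr (fun i => (T (j.succAbove i)).map
      (QuotientAddGroup.mk' (AddSubgroup.zmultiples x))) Gen
    rw [pr_map]
    apply pr_congr
    intro c _
    rw [key, gen_map_iff _ (QuotientAddGroup.mk'_surjective _), QuotientAddGroup.ker_mk']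

omit hp in
lemma avg_ne_zero {A : Type*} [AddCommGroup A] [Finite A] :
    avg (fun x : A => ind (x ≠ 0)) = 1 - 1 / Nat.card A := by
  have h : ∀ x : A, ind (x ≠ 0) = 1 - ind (x = 0) := by
    intro x
    by_cases hx : x = 0
    · rw [ind_false (not_not.2 hx), ind_true hx, sub_self]
    · rw [ind_true hx, ind_false hx, sub_zero]
  rw [avg_congr h, avg_sub, avg_const, avg_ind]
  have : Nat.card {a : A // a = 0} = 1 := by
    rw [Nat.card_eq_one_iff_unique]
    exact ⟨⟨fun a b => Subtype.ext (a.2.trans b.2.symm)⟩, ⟨⟨0, rfl⟩⟩⟩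
  rw [this, Nat.cast_one]

lemma pr_gen_le_step {Q : Type u} [AddCommGroup Q] [Finite Q] (hQ : ∀ x : Q, p • x = 0) {n : ℕ}
    (hc : Nat.card Q = p ^ (n + 1)) (T : Fin (n + 1) → AddSubgroup Q) (j : Fin (n + 1)) {K : ℝ}
    (hK : ∀ (x : Q) (_ : x ≠ 0) (T' : Fin n → AddSubgroup (Q ⧸ AddSubgroup.zmultiples x)),
      pr T' Gen ≤ K) : pr T Gen ≤ K * (1 - 1 / Nat.card (T j)) := by
  rw [pr_gen_formula hp hQ hc T j, ← avg_ne_zero (A := T j), ← avg_mul]
  apply avg_mono
  rintro ⟨x, hx⟩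
  by_cases h0 : (⟨x, hx⟩ : T j) = 0
  · rw [ind_false (not_not.2 h0), zero_mul, mul_zero]
  · rw [ind_true h0, one_mul, mul_one]
    exact hK x (fun h => h0 (Subtype.ext h)) _

theorem pr_gen_le (n : ℕ) : ∀ {Q : Type u} [AddCommGroup Q] [Finite Q] (_ : ∀ x : Q, p • x = 0)
    (_ : Nat.card Q = p ^ n) (T : Fin n → AddSubgroup Q), pr T Gen ≤ qq p n := by
  induction n with
  | zero =>
    intro Q _ _ _ _ T
    refine (pr_le_one _ _).trans ?_
    unfold qq
    simp
  | succ n ih =>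
    intro Q _ _ hQ hc T
    refine (pr_gen_le_step hp hQ hc T 0 (K := qq p n) (fun x hx T' =>
      ih (elem_quot hQ _) (card_quot hp hQ hc hx) T')).trans ?_
    rw [qq_succ]
    refine mul_le_mul_of_nonneg_left ?_ (qq_pos hp n).le
    have h1 : Nat.card (T 0) ≤ p ^ (n + 1) := by
      rw [← hc]
      exact AddSubgroup.card_le_card_addGroup _
    have h2 : (0 : ℝ) < Nat.card (T 0) := by exact_mod_cast Nat.card_pos
    have h3 : ((p : ℝ)⁻¹) ^ (n + 1) ≤ 1 / Nat.card (T 0) := by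
      rw [inv_pow, ← one_div]
      apply one_div_le_one_div_of_le h2
      exact_mod_cast h1
    linarith

theorem pr_gen_lt (n : ℕ) {Q : Type u} [AddCommGroup Q] [Finite Q] (hQ : ∀ x : Q, p • x = 0)
    (hc : Nat.card Q = p ^ (n + 1)) (T : Fin (n + 1) → AddSubgroup Q) (j : Fin (n + 1))
    (hj : T j ≠ ⊤) : pr T Gen ≤ qq p n * (1 - ((p : ℝ)⁻¹) ^ n) := by
  refine (pr_gen_le_step hp hQ hc T j (K := qq p n) (fun x hx T' =>
    pr_gen_le hp n (elem_quot hQ _) (card_quot hp hQ hc hx) T')).trans ?_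
  refine mul_le_mul_of_nonneg_left ?_ (qq_pos hp n).le
  have h1 : Nat.card (T j) ≤ p ^ n := by
    have h2 : Nat.card (T j) ∣ p ^ (n + 1) := by
      rw [← hc]
      exact AddSubgroup.card_addSubgroup_dvd_card _
    obtain ⟨k, hk, hk2⟩ := (Nat.dvd_prime_pow hp).1 h2
    rw [hk2]
    apply Nat.pow_le_pow_right hp.pos
    rcases Nat.lt_or_ge k (n + 1) with h | h
    · omega
    · exfalso
      have h3 : k = n + 1 := le_antisymm hk h
      rw [h3, ← hc] at hk2
      exact hj (AddSubgroup.eq_top_of_card_eq _ hk2)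
  have h2 : (0 : ℝ) < Nat.card (T j) := by exact_mod_cast Nat.card_pos
  have h3 : ((p : ℝ)⁻¹) ^ n ≤ 1 / Nat.card (T j) := by
    rw [inv_pow, ← one_div]
    apply one_div_le_one_div_of_le h2
    exact_mod_cast h1
  linarith

theorem pr_gen_top (n : ℕ) : ∀ {Q : Type u} [AddCommGroup Q] [Finite Q] (_ : ∀ x : Q, p • x = 0)
    (_ : Nat.card Q = p ^ n), pr (fun _ : Fin n => (⊤ : AddSubgroup Q)) Gen = qq p n := by
  induction n with
  | zero =>
    intro Q _ _ _ hc
    rw [pow_zero, Nat.card_eq_one_iff_unique] at hc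
    unfold pr
    have h : ∀ c : (i : Fin 0) → (⊤ : AddSubgroup Q), ind (Gen (fun i => ((c i : Q)))) = 1 := by
      intro c
      apply ind_true
      unfold Gen
      have := hc.1
      exact Subsingleton.elim _ _
    rw [avg_congr h, avg_const]
    unfold qq
    simp
  | succ n ih =>
    intro Q _ _ hQ hc
    rw [pr_gen_formula hp hQ hc _ 0]
    have h1 : ∀ x : (⊤ : AddSubgroup Q), ind (x ≠ 0) *
        pr (fun _ : Fin n => (⊤ : AddSubgroup Q).map
          (QuotientAddGroup.mk' (AddSubgroup.zmultiples (x : Q)))) Gen = qq p n * ind (x ≠ 0) := by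
      intro x
      by_cases h0 : x = 0
      · rw [ind_false (not_not.2 h0), zero_mul, mul_zero]
      · rw [ind_true h0, one_mul, mul_one,
          AddSubgroup.map_top_of_surjective _ (QuotientAddGroup.mk'_surjective _)]
        exact ih (elem_quot hQ _) (card_quot hp hQ hc (fun h => h0 (Subtype.ext h)))
    rw [avg_congr h1, avg_mul, avg_ne_zero, qq_succ,
      Nat.card_congr AddSubgroup.topEquiv.toEquiv, hc]
    congr 2
    rw [inv_pow, one_div, Nat.cast_pow]

end elem

end Q40.CL
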