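import Pool.Agent.Q40.CL.PGrp

set_option autoImplicit false

/-! The distribution of the cokernel of a uniform matrix over `ℤ / p ^ (M + 1)`. -/

namespace Q40.CL

open Finset

lemma pr_top_eq {ι Q : Type*} [AddCommGroup Q] [Finite ι] [Finite Q] (Ψ : (ι → Q) → Prop) :
    pr (fun _ : ι => (⊤ : AddSubgroup Q)) Ψ = avg (fun c : ι → Q => ind (Ψ c)) := by
  unfold pr
  exact avg_equiv (Equiv.piCongrRight (fun _ : ι => (AddSubgroup.topEquiv (G := Q)).toEquiv))
    (fun c => ind (Ψ c))

lemma finite_hom (A B : Type*) [AddCommGroup A] [AddCommGroup B] [Finite A] [Finite B] :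
    Finite (A →+ B) := DFunLike.finite _

lemma finite_equiv (A B : Type*) [AddCommGroup A] [AddCommGroup B] [Finite A] [Finite B] :
    Finite (A ≃+ B) := DFunLike.finite _

/-- the number of surjections with a given kernel -/
lemma card_surj_ker {F G : Type*} [AddCommGroup F] [AddCommGroup G] [Finite F] [Finite G]
    (K : AddSubgroup F) : (Nat.card {φ : F →+ G // Function.Surjective φ ∧ φ.ker = K} : ℝ) =
      ind (Nonempty (F ⧸ K ≃+ G)) * Nat.card (G ≃+ G) := by
  by_cases h : Nonempty (F ⧸ K ≃+ G)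
  · rw [ind_true h, one_mul, Nat.cast_inj]
    obtain ⟨e⟩ := h
    symm
    let Θ : (G ≃+ G) → {φ : F →+ G // Function.Surjective φ ∧ φ.ker = K} := fun α =>
      ⟨(α.toAddMonoidHom.comp e.toAddMonoidHom).comp (QuotientAddGroup.mk' K), by
        constructor
        · exact (α.surjective.comp e.surjective).comp (QuotientAddGroup.mk'_surjective K)
        · ext x
          rw [AddMonoidHom.mem_ker]
          change α (e (QuotientAddGroup.mk' K x)) = 0 ↔ _
          rw [map_eq_zero_iff α α.injective, map_eq_zero_iff e e.injective]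
          exact QuotientAddGroup.eq_zero_iff x⟩
    apply Nat.card_eq_of_bijective Θ
    constructor
    · intro α β hαβ
      have h1 : ∀ x : F, α (e (QuotientAddGroup.mk' K x)) = β (e (QuotientAddGroup.mk' K x)) :=
        fun x => DFunLike.congr_fun (congrArg Subtype.val hαβ) x
      ext g
      obtain ⟨y, rfl⟩ := e.surjective g
      obtain ⟨x, rfl⟩ := QuotientAddGroup.mk'_surjective K y
      exact h1 x
    · rintro ⟨φ, hs, hk⟩
      refine ⟨e.symm.trans ((QuotientAddGroup.quotientAddEquivOfEq hk.symm).trans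
        (QuotientAddGroup.quotientKerEquivOfSurjective φ hs)), ?_⟩
      apply Subtype.ext
      ext x
      change QuotientAddGroup.quotientKerEquivOfSurjective φ hs
        (QuotientAddGroup.quotientAddEquivOfEq hk.symm (e.symm (e (QuotientAddGroup.mk' K x)))) = φ x
      rw [AddEquiv.symm_apply_apply]
      rfl
  · rw [ind_false h, zero_mul, Nat.cast_eq_zero, Nat.card_eq_zero]
    left
    constructor
    rintro ⟨φ, hs, hk⟩
    exact h ⟨(QuotientAddGroup.quotientAddEquivOfEq hk.symm).trans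
      (QuotientAddGroup.quotientKerEquivOfSurjective φ hs)⟩

lemma card_gen_sub {F : Type*} [AddCommGroup F] [Finite F] (R : ℕ) (L : AddSubgroup F) :
    (Nat.card {c : Fin R → F // AddSubgroup.closure (Set.range c) = L} : ℝ) =
      (Nat.card L : ℝ) ^ R * pr (fun _ : Fin R => (⊤ : AddSubgroup L)) Gen := by
  have h1 : (Nat.card (Fin R → L) : ℝ) = (Nat.card L : ℝ) ^ R := by
    rw [Nat.card_fun, Nat.cast_pow, Nat.card_eq_fintype_card (α := Fin R), Fintype.card_fin]
  have h2 : (Nat.card (Fin R → L) : ℝ) ≠ 0 := by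
    rw [Nat.cast_ne_zero]; exact Nat.card_pos.ne'
  rw [pr_top_eq, avg_ind, ← h1, mul_div_cancel₀ _ h2, Nat.cast_inj]
  symm
  have key : ∀ c : Fin R → L, AddSubgroup.closure (Set.range (fun i => (c i : F))) =
      (AddSubgroup.closure (Set.range c)).map L.subtype := by
    intro c
    rw [AddMonoidHom.map_closure, ← Set.range_comp]
    rfl
  apply Nat.card_congr
  refine ⟨fun c => ⟨fun i => (c.1 i : F), ?_⟩, fun c => ⟨fun i => ⟨c.1 i, ?_⟩, ?_⟩, ?_, ?_⟩
  · rw [key, c.2]
    ext x
    simp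
  · exact c.2.le (AddSubgroup.subset_closure ⟨i, rfl⟩)
  · have hc := key (fun i => ⟨c.1 i, c.2.le (AddSubgroup.subset_closure ⟨i, rfl⟩)⟩)
    have h3 : (⊤ : AddSubgroup L).map L.subtype = L := by ext x; simp
    apply AddSubgroup.map_injective L.subtype_injective
    exact (hc.symm.trans c.2).trans h3.symm
  · intro c; rfl
  · intro c; rfl

section fw

variable {p : ℕ} [Fact p.Prime] (M R : ℕ) {G : Type} [AddCommGroup G] [Finite G]
  (hG : ∀ g : G, p ^ M • g = 0)

lemma torsion_free_mod (x : Fin R → ZMod (p ^ (M + 1))) (hx : p • x = 0) :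
    ∃ y, x = p ^ M • y := by
  have h1 : ∀ i, ∃ a : ZMod (p ^ (M + 1)), x i = p ^ M • a := by
    intro i
    have h2 : p • x i = 0 := congrFun hx i
    obtain ⟨z, hz⟩ := ZMod.intCast_surjective (x i)
    rw [← hz, nsmul_eq_mul] at h2
    have h3 : (((p : ℤ) * z : ℤ) : ZMod (p ^ (M + 1))) = 0 := by
      push_cast; exact h2
    rw [ZMod.intCast_zmod_eq_zero_iff_dvd] at h3
    obtain ⟨k, hk⟩ := h3
    have hp0 : (p : ℤ) ≠ 0 := by exact_mod_cast (Fact.out : p.Prime).ne_zero
    have h4 : z = (p : ℤ) ^ M * k := by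
      apply mul_left_cancel₀ hp0
      rw [hk]
      push_cast
      ring
    refine ⟨(k : ZMod (p ^ (M + 1))), ?_⟩
    rw [← hz, h4, nsmul_eq_mul]
    push_cast
    rfl
  choose y hy using h1
  exact ⟨y, funext hy⟩

include hG

lemma card_surj :
    (Nat.card {φ : (Fin R → ZMod (p ^ (M + 1))) →+ G // Function.Surjective φ} : ℝ) =
      (Nat.card G : ℝ) ^ R * pr (fun _ : Fin R => (⊤ : AddSubgroup G)) Gen := by
  have h1 : (Nat.card (Fin R → G) : ℝ) = (Nat.card G : ℝ) ^ R := by
    rw [Nat.card_fun, Nat.cast_pow, Nat.card_eq_fintype_card (α := Fin R), Fintype.card_fin]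
  have h2 : (Nat.card (Fin R → G) : ℝ) ≠ 0 := by
    rw [Nat.cast_ne_zero]; exact Nat.card_pos.ne'
  rw [pr_top_eq, avg_ind, ← h1, mul_div_cancel₀ _ h2, Nat.cast_inj]
  have hG' : ∀ g : G, p ^ (M + 1) • g = 0 := by
    intro g
    rw [pow_succ', mul_smul, hG, smul_zero]
  have key : ∀ φ : (Fin R → ZMod (p ^ (M + 1))) →+ G,
      fl (p ^ (M + 1)) (fun i => φ (Pi.single i 1)) (fun i => hG' _) = φ := by
    intro φ
    apply fl_ext
    intro i
    rw [fl_single]
  have key2 : ∀ c : Fin R → G, Function.Surjective (fl (p ^ (M + 1)) c (fun i => hG' _)) ↔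
      Gen c := by
    intro c
    unfold Gen
    rw [← fl_range (p ^ (M + 1)) c (fun i => hG' _), AddMonoidHom.range_eq_top]
  apply Nat.card_congr
  refine ⟨fun φ => ⟨fun i => φ.1 (Pi.single i 1), ?_⟩, fun c => ⟨fl (p ^ (M + 1)) c.1
    (fun i => hG' _), (key2 _).2 c.2⟩, ?_, ?_⟩
  · rw [← key2, key]
    exact φ.2
  · intro φ
    exact Subtype.ext (key _)
  · intro c
    apply Subtype.ext
    funext i
    exact fl_single _ _ _ i

theorem friedman_washington :
    pr (fun _ : Fin R => (⊤ : AddSubgroup (Fin R → ZMod (p ^ (M + 1)))))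
      (fun c => Nonempty ((Fin R → ZMod (p ^ (M + 1))) ⧸ AddSubgroup.closure (Set.range c) ≃+ G)) *
      Nat.card (G ≃+ G) = qq p R * pr (fun _ : Fin R => (⊤ : AddSubgroup G)) Gen := by
  classical
  have hp : p.Prime := Fact.out
  set F := Fin R → ZMod (p ^ (M + 1)) with hF
  have hfin := finite_hom F G
  let _ := Fintype.ofFinite (F →+ G)
  let _ := Fintype.ofFinite (Fin R → F)
  -- double counting
  have h1 : ∑ c : Fin R → F, Nat.card {φ : F →+ G // Function.Surjective φ ∧
      φ.ker = AddSubgroup.closure (Set.range c)} =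
      ∑ φ : {φ : F →+ G // Function.Surjective φ},
        Nat.card {c : Fin R → F // AddSubgroup.closure (Set.range c) = φ.1.ker} := by
    rw [← Nat.card_sigma, ← Nat.card_sigma]
    apply Nat.card_congr
    exact ⟨fun x => ⟨⟨x.2.1, x.2.2.1⟩, ⟨x.1, x.2.2.2.symm⟩⟩,
      fun x => ⟨x.2.1, ⟨x.1.1, x.1.2, x.2.2.symm⟩⟩, fun x => rfl, fun x => rfl⟩
  have h2 : ((∑ c : Fin R → F, Nat.card {φ : F →+ G // Function.Surjective φ ∧
      φ.ker = AddSubgroup.closure (Set.range c)} : ℕ) : ℝ) =
      ((Nat.card (Fin R → F) : ℝ) * pr (fun _ : Fin R => (⊤ : AddSubgroup F))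
      (fun c => Nonempty (F ⧸ AddSubgroup.closure (Set.range c) ≃+ G))) * Nat.card (G ≃+ G) := by
    rw [Nat.cast_sum]
    simp_rw [card_surj_ker]
    rw [← Finset.sum_mul, pr_top_eq, avg_def, mul_div_cancel₀]
    rw [Nat.cast_ne_zero]; exact Nat.card_pos.ne'
  have h3 : ∀ φ : {φ : F →+ G // Function.Surjective φ},
      (Nat.card {c : Fin R → F // AddSubgroup.closure (Set.range c) = φ.1.ker} : ℝ) =
      (Nat.card φ.1.ker : ℝ) ^ R * qq p R := by
    intro φ
    rw [card_gen_sub]
    congr 1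
    have hN : ∀ x : φ.1.ker, p ^ (M + 1) • x = 0 := by
      intro x
      exact Subtype.ext (free_pow R x.1)
    apply prob_gen_top hp hN
    apply card_sub_quot (Nat.succ_pos M)
    intro x hx
    obtain ⟨y, rfl⟩ := torsion_free_mod M R x hx
    rw [AddMonoidHom.mem_ker, map_nsmul, hG]
  have h4 : ∀ φ : {φ : F →+ G // Function.Surjective φ},
      (Nat.card φ.1.ker : ℝ) = Nat.card F / Nat.card G := by
    intro φ
    have h5 := AddSubgroup.card_eq_card_quotient_mul_card_addSubgroup φ.1.ker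
    have h6 := Nat.card_congr (QuotientAddGroup.quotientKerEquivOfSurjective φ.1 φ.2).toEquiv
    rw [h6] at h5
    have h7 : (Nat.card G : ℝ) ≠ 0 := by rw [Nat.cast_ne_zero]; exact Nat.card_pos.ne'
    rw [eq_div_iff h7, h5, mul_comm, Nat.cast_mul]
  rw [h1, Nat.cast_sum] at h2
  simp_rw [h3, h4] at h2
  rw [Finset.sum_const, Finset.card_univ, nsmul_eq_mul, ← Nat.card_eq_fintype_card,
    card_surj M R hG] at h2
  have h5 : (Nat.card (Fin R → F) : ℝ) = (Nat.card F : ℝ) ^ R := by
    rw [Nat.card_fun, Nat.cast_pow, Nat.card_eq_fintype_card (α := Fin R), Fintype.card_fin]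
  have h6 : (Nat.card F : ℝ) ^ R ≠ 0 := by
    apply pow_ne_zero
    rw [Nat.cast_ne_zero]; exact Nat.card_pos.ne'
  have h7 : (Nat.card G : ℝ) ^ R ≠ 0 := by
    apply pow_ne_zero
    rw [Nat.cast_ne_zero]; exact Nat.card_pos.ne'
  rw [h5, div_pow] at h2
  apply mul_left_cancel₀ h6
  rw [← mul_assoc, ← h2]
  field_simp

end fw

end Q40.CL
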