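import Pool.Agent.Q40.CL.Haar

set_option autoImplicit false

/-! The rank-zero criterion. -/

namespace Q40.CL

open MeasureTheory Filter Topology

variable {p : ℕ} [Fact p.Prime] [MeasurableSpace ℤ_[p]] [BorelSpace ℤ_[p]]

lemma pow_smul_eq_zero {G : Type} [AddCommGroup G] [Finite G] {k : ℕ} (hk : Nat.card G = p ^ k)
    (g : G) : p ^ k • g = 0 := by
  rw [← hk]
  exact card_nsmul_eq_zero'

lemma law_cok {G : Type} [AddCommGroup G] {M : ℕ} (hG : ∀ g : G, p ^ M • g = 0) {n : ℕ}
    (σ : Fin n → Set (Fin n)) : (law p σ).real {X | Nonempty (cok X ≃+ G)} =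
      prc (TT (ZMod (p ^ (M + 1))) σ) (fun K => Nonempty (Fr p M n ⧸ K ≃+ G)) := by
  unfold prc
  rw [← law_event]
  congr 1
  ext X
  exact cok_iff M X hG

lemma law_det (M : ℕ) {n : ℕ} (σ : Fin n → Set (Fin n)) :
    (law p σ).real {X | (redMod X).det ≠ 0} =
      prc (TT (ZMod (p ^ (M + 1))) σ) (fun K => K = ⊤) := by
  unfold prc
  rw [← law_event]
  congr 1
  ext X
  exact (closure_top_iff M X).symm

lemma measurable_cok {G : Type} [AddCommGroup G] {M : ℕ} (hG : ∀ g : G, p ^ M • g = 0) {n : ℕ} :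
    MeasurableSet {X : Fin n → Fin n → ℤ_[p] | Nonempty (cok X ≃+ G)} := by
  have h1 := measurable_event (p := p) (n := n) M (fun c =>
    Nonempty (Fr p M n ⧸ AddSubgroup.closure (Set.range c) ≃+ G))
  convert h1 using 1
  ext X
  exact cok_iff M X hG

lemma measurable_det {n : ℕ} :
    MeasurableSet {X : Fin n → Fin n → ℤ_[p] | (redMod X).det ≠ 0} := by
  have h1 := measurable_event (p := p) (n := n) 0 (fun c => AddSubgroup.closure (Set.range c) = ⊤)
  convert h1 using 1
  ext X
  exact (closure_top_iff 0 X).symm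

/-- The rank-zero criterion. -/
theorem criterion (σ : (n : ℕ) → Fin n → Set (Fin n)) :
    (∀ (G : Type) [AddCommGroup G] [Finite G], (∃ k : ℕ, Nat.card G = p ^ k) →
      Tendsto (fun n => (law p (σ n)).real {X | Nonempty (cok X ≃+ G)}) atTop (𝓝 (clMass p G))) ↔
    Tendsto (fun n => (law p (σ n)).real {X | (redMod X).det ≠ 0}) atTop (𝓝 (cConst p)) := by
  constructor
  · intro h
    have h1 := h PUnit.{1} ⟨0, by simp⟩
    have h2 : clMass p PUnit.{1} = cConst p := by
      unfold clMass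
      have h3 : Nat.card (PUnit.{1} ≃+ PUnit.{1}) = 1 := by
        rw [Nat.card_eq_one_iff_unique]
        exact ⟨⟨fun a b => AddEquiv.ext (fun _ => rfl)⟩, ⟨AddEquiv.refl _⟩⟩
      rw [h3, Nat.cast_one, div_one]
    rw [h2] at h1
    refine h1.congr (fun n => ?_)
    congr 1
    ext X
    exact cok_trivial_iff X
  · rintro h G _ _ ⟨k, hk⟩
    have hG := pow_smul_eq_zero hk
    simp_rw [law_cok hG]
    simp_rw [law_det k] at h
    exact main_lim k hG _ h

end Q40.CL
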