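import Pool.Agent.Q40.CL.Avg

set_option autoImplicit false

/-! Probability that random elements generate a finite abelian group. -/

namespace Q40.CL

open Finset

/-- the probability that a random tuple with entries in the subgroups `T i` satisfies `Ψ` -/
noncomputable def pr {ι : Type*} {Q : Type*} [AddCommGroup Q] [Finite ι] [Finite Q]
    (T : ι → AddSubgroup Q) (Ψ : (ι → Q) → Prop) : ℝ :=
  avg (fun c : (i : ι) → T i => ind (Ψ (fun i => (c i : Q))))

/-- the elements of the tuple generate the group -/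
def Gen {ι : Type*} {Q : Type*} [AddCommGroup Q] (c : ι → Q) : Prop :=
  AddSubgroup.closure (Set.range c) = ⊤

section basic

variable {ι : Type*} {Q Q' : Type*} [AddCommGroup Q] [AddCommGroup Q'] [Finite ι] [Finite Q]
  [Finite Q']

lemma pr_nonneg (T : ι → AddSubgroup Q) (Ψ : (ι → Q) → Prop) : 0 ≤ pr T Ψ :=
  avg_nonneg (fun _ => ind_nonneg _)

lemma pr_le_one (T : ι → AddSubgroup Q) (Ψ : (ι → Q) → Prop) : pr T Ψ ≤ 1 := by
  refine (avg_mono (fun _ => ind_le_one _)).trans ?_
  rw [avg_const]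

lemma pr_congr (T : ι → AddSubgroup Q) {Ψ Ψ' : (ι → Q) → Prop} (h : ∀ c, (∀ i, c i ∈ T i) →
    (Ψ c ↔ Ψ' c)) : pr T Ψ = pr T Ψ' :=
  avg_congr (fun c => ind_congr (h _ (fun i => (c i).2)))

/-- the map on tuples induced by a homomorphism -/
def tmap (φ : Q →+ Q') (T : ι → AddSubgroup Q) :
    ((i : ι) → T i) →+ ((i : ι) → (T i).map φ) where
  toFun c i := ⟨φ (c i), AddSubgroup.mem_map_of_mem φ (c i).2⟩
  map_zero' := by
    funext i
    apply Subtype.ext
    simp
  map_add' c c' := by
    funext i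
    apply Subtype.ext
    simp

lemma pr_map (φ : Q →+ Q') (T : ι → AddSubgroup Q) (Ψ : (ι → Q') → Prop) :
    pr (fun i => (T i).map φ) Ψ = pr T (fun c => Ψ (fun i => φ (c i))) := by
  unfold pr
  rw [← avg_surj (tmap φ T)]
  · rfl
  · intro c'
    have h : ∀ i, ∃ x : T i, φ x = c' i := by
      intro i
      obtain ⟨x, hx, hx'⟩ := (c' i).2
      exact ⟨⟨x, hx⟩, hx'⟩
    choose x hx using h
    exact ⟨x, funext fun i => Subtype.ext (hx i)⟩

omit [Finite ι] [Finite Q] [Finite Q'] in
/-- reduction to a quotient, for generation -/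
lemma gen_map_iff (φ : Q →+ Q') (hφ : Function.Surjective φ) (c : ι → Q) :
    Gen (fun i => φ (c i)) ↔ AddSubgroup.closure (Set.range c) ⊔ φ.ker = ⊤ := by
  unfold Gen
  have h1 : Set.range (fun i => φ (c i)) = φ '' Set.range c := by
    rw [← Set.range_comp]; rfl
  rw [h1, ← AddMonoidHom.map_closure]
  constructor
  · intro h
    rw [eq_top_iff]
    intro x _
    have hx : φ x ∈ (AddSubgroup.closure (Set.range c)).map φ := by rw [h]; trivial
    obtain ⟨y, hy, hxy⟩ := hx
    rw [show x = y + (x - y) by abel]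
    refine AddSubgroup.add_mem_sup hy ?_
    rw [AddMonoidHom.mem_ker, map_sub, hxy, sub_self]
  · intro h
    have h2 := congrArg (AddSubgroup.map φ) h
    rw [AddSubgroup.map_sup, AddSubgroup.map_top_of_surjective φ hφ,
      (AddSubgroup.map_eq_bot_iff _).2 le_rfl, sup_bot_eq] at h2
    exact h2

omit [Finite ι] [Finite Q] [Finite Q'] in
lemma gen_iff_of_equiv (e : Q ≃+ Q') (c : ι → Q) : Gen (fun i => e (c i)) ↔ Gen c := by
  have h := gen_map_iff e.toAddMonoidHom e.surjective c
  have hk : e.toAddMonoidHom.ker = ⊥ := (AddMonoidHom.ker_eq_bot_iff _).2 e.injective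
  rw [hk, sup_bot_eq] at h
  exact h

end basic

section split

variable {Q : Type*} [AddCommGroup Q] [Finite Q]

lemma pr_fin (n : ℕ) (T : Fin (n + 1) → AddSubgroup Q) (j : Fin (n + 1))
    (Ψ : (Fin (n + 1) → Q) → Prop) :
    pr T Ψ = avg (fun x : T j => pr (fun i => T (j.succAbove i))
      (fun c => Ψ (j.insertNth (α := fun _ => Q) (x : Q) c))) := by
  unfold pr
  rw [← avg_prod (fun p : (T j) × ((i : Fin n) → T (j.succAbove i)) =>
    ind (Ψ (j.insertNth (α := fun _ => Q) (p.1 : Q) (fun i => (p.2 i : Q)))))]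
  rw [← avg_equiv (Fin.insertNthEquiv (fun i => T i) j)]
  apply avg_congr
  rintro ⟨x, c⟩
  apply ind_congr
  have h : (fun i => ((Fin.insertNthEquiv (fun i => T i) j (x, c)) i : Q)) =
      j.insertNth (α := fun _ => Q) (x : Q) (fun i => (c i : Q)) := by
    funext i
    refine Fin.succAboveCases j ?_ (fun i => ?_) i
    · simp
    · simp
  rw [h]

end split

end Q40.CL
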