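import Pool.Agent.Q40.CL.Alg

set_option autoImplicit false

/-! The law of the reduction of a Haar-random matrix. -/

namespace Q40.CL

open MeasureTheory Set

lemma sum_ind {A : Type*} [Fintype A] (s : Finset A) (P : A → Prop) :
    ∑ a ∈ s, ind (P a) = Nat.card {a // a ∈ s ∧ P a} := by
  classical
  have h : ∀ a, ind (P a) = if P a then (1 : ℝ) else 0 := by
    intro a
    by_cases ha : P a
    · rw [ind_true ha, if_pos ha]
    · rw [ind_false ha, if_neg ha]
  simp_rw [h]
  rw [Finset.sum_boole, Nat.card_eq_fintype_card, Fintype.card_subtype]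
  congr 2
  ext a
  simp

section haar

variable {p : ℕ} [Fact p.Prime] [MeasurableSpace ℤ_[p]] [BorelSpace ℤ_[p]]

instance : IsProbabilityMeasure (haarZp p) := by
  constructor
  have h := Measure.addHaarMeasure_self (G := ℤ_[p]) (K₀ := ⊤)
  exact h

instance : (haarZp p).IsAddLeftInvariant := by
  unfold haarZp; infer_instance

lemma measurable_fib (N : ℕ) (a : ZMod (p ^ N)) :
    MeasurableSet {x : ℤ_[p] | PadicInt.toZModPow N x = a} := by
  obtain ⟨y, rfl⟩ := ZMod.ringHom_surjective (PadicInt.toZModPow N : ℤ_[p] →+* ZMod (p ^ N)) a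
  have h : {x : ℤ_[p] | PadicInt.toZModPow N x = PadicInt.toZModPow N y} =
      Metric.closedBall y ((p : ℝ) ^ (-N : ℤ)) := by
    ext x
    rw [Set.mem_ofPred_eq, Metric.mem_closedBall, dist_eq_norm,
      PadicInt.norm_le_pow_iff_mem_span_pow, ← PadicInt.ker_toZModPow, RingHom.mem_ker, map_sub,
      sub_eq_zero]
  rw [h]
  exact Metric.isClosed_closedBall.measurableSet

lemma haar_fib (N : ℕ) (a : ZMod (p ^ N)) :
    (haarZp p).real {x : ℤ_[p] | PadicInt.toZModPow N x = a} = ((p : ℝ) ^ N)⁻¹ := by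
  classical
  have key : ∀ a : ZMod (p ^ N), (haarZp p).real {x : ℤ_[p] | PadicInt.toZModPow N x = a} =
      (haarZp p).real {x : ℤ_[p] | PadicInt.toZModPow N x = 0} := by
    intro a
    obtain ⟨y, rfl⟩ := ZMod.ringHom_surjective (PadicInt.toZModPow N : ℤ_[p] →+* ZMod (p ^ N)) a
    have h := measure_preimage_add (haarZp p) y
      {x : ℤ_[p] | PadicInt.toZModPow N x = PadicInt.toZModPow N y}
    have h2 : (fun h => y + h) ⁻¹' {x : ℤ_[p] | PadicInt.toZModPow N x = PadicInt.toZModPow N y} =
        {x : ℤ_[p] | PadicInt.toZModPow N x = 0} := by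
      ext x
      simp
    rw [h2] at h
    unfold Measure.real
    rw [h]
  have h1 : (Set.univ : Set ℤ_[p]) = ⋃ a ∈ (Finset.univ : Finset (ZMod (p ^ N))),
      {x : ℤ_[p] | PadicInt.toZModPow N x = a} := by
    ext x; simp
  have h2 : (haarZp p).real Set.univ = 1 := by simp
  rw [h1, measureReal_biUnion_finset] at h2
  · simp_rw [key] at h2
    rw [Finset.sum_const, Finset.card_univ, ZMod.card, nsmul_eq_mul, ← key a] at h2
    rw [Nat.cast_pow] at h2
    exact eq_inv_of_mul_eq_one_right h2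
  · intro a _ b _ hab
    change Disjoint _ _
    rw [Set.disjoint_left]
    intro x hx hx'
    exact hab (hx.symm.trans hx')
  · intro a _
    exact measurable_fib N a

open Classical in
/-- the law of an entry -/
noncomputable def nu {n : ℕ} (σ : Fin n → Set (Fin n)) (i j : Fin n) : Measure ℤ_[p] :=
  if i ∈ σ j then haarZp p else Measure.dirac 0

instance {n : ℕ} (σ : Fin n → Set (Fin n)) (i j : Fin n) :
    IsProbabilityMeasure (nu (p := p) σ i j) := by
  unfold nu
  split_ifs <;> infer_instance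

open Classical in
/-- the values of an entry -/
noncomputable def ss (Λ : Type) [AddCommGroup Λ] {n : ℕ} (σ : Fin n → Set (Fin n)) (i j : Fin n) :
    AddSubgroup Λ := if i ∈ σ j then ⊤ else ⊥

lemma nu_fib {n : ℕ} (σ : Fin n → Set (Fin n)) (i j : Fin n) (N : ℕ) (a : ZMod (p ^ N)) :
    (nu (p := p) σ i j).real {x : ℤ_[p] | PadicInt.toZModPow N x = a} =
      ind (a ∈ ss (ZMod (p ^ N)) σ i j) * (Nat.card (ss (ZMod (p ^ N)) σ i j) : ℝ)⁻¹ := by
  unfold nu ss
  split_ifs with h
  · rw [haar_fib, ind_true (AddSubgroup.mem_top a), one_mul,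
      Nat.card_congr AddSubgroup.topEquiv.toEquiv, Nat.card_zmod, Nat.cast_pow]
  · rw [AddSubgroup.card_bot, Nat.cast_one, inv_one, mul_one]
    unfold Measure.real
    rw [Measure.dirac_apply' _ (measurable_fib N a)]
    by_cases ha : a = 0
    · subst ha
      rw [ind_true (AddSubgroup.zero_mem _), Set.indicator_of_mem]
      · simp
      · simp
    · rw [ind_false (fun h => ha (AddSubgroup.mem_bot.1 h)), Set.indicator_of_notMem]
      · simp
      · intro h0
        exact ha (by rw [← map_zero (PadicInt.toZModPow N : ℤ_[p] →+* _)]; exact h0.symm)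

/-- the supported columns -/
noncomputable def TT (Λ : Type) [AddCommGroup Λ] {n : ℕ} (σ : Fin n → Set (Fin n)) (j : Fin n) :
    AddSubgroup (Fin n → Λ) := AddSubgroup.pi Set.univ (fun i => ss Λ σ i j)

lemma card_TT (Λ : Type) [AddCommGroup Λ] {n : ℕ} (σ : Fin n → Set (Fin n)) :
    Nat.card ((j : Fin n) → TT Λ σ j) = ∏ j, ∏ i, Nat.card (ss Λ σ i j) := by
  rw [Nat.card_pi]
  apply Finset.prod_congr rfl
  intro j _
  rw [← Nat.card_pi]
  apply Nat.card_congr
  exact ⟨fun v i => ⟨v.1 i, v.2 i trivial⟩, fun v => ⟨fun i => v i, fun i _ => (v i).2⟩,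
    fun v => rfl, fun v => rfl⟩

variable {n : ℕ} (σ : Fin n → Set (Fin n)) (M : ℕ)

lemma measurable_red (Y : Fin n → Fr p M n) :
    MeasurableSet {X : Fin n → Fin n → ℤ_[p] | red M X = Y} := by
  have h : {X : Fin n → Fin n → ℤ_[p] | red M X = Y} = Set.pi Set.univ (fun i =>
      Set.pi Set.univ (fun j => {x : ℤ_[p] | PadicInt.toZModPow (M + 1) x = Y j i})) := by
    ext X
    rw [Set.mem_ofPred_eq, Set.mem_univ_pi]
    simp_rw [Set.mem_univ_pi]
    constructor
    · rintro rfl i j; rfl
    · intro h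
      funext j i
      exact h i j
  rw [h]
  exact MeasurableSet.univ_pi (fun i => MeasurableSet.univ_pi (fun j => measurable_fib _ _))

lemma law_red (Y : Fin n → Fr p M n) :
    (law p σ).real {X | red M X = Y} =
      ind (∀ j, Y j ∈ TT (ZMod (p ^ (M + 1))) σ j) *
        (Nat.card ((j : Fin n) → TT (ZMod (p ^ (M + 1))) σ j) : ℝ)⁻¹ := by
  have h : {X : Fin n → Fin n → ℤ_[p] | red M X = Y} = Set.pi Set.univ (fun i =>
      Set.pi Set.univ (fun j => {x : ℤ_[p] | PadicInt.toZModPow (M + 1) x = Y j i})) := by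
    ext X
    rw [Set.mem_ofPred_eq, Set.mem_univ_pi]
    simp_rw [Set.mem_univ_pi]
    constructor
    · rintro rfl i j; rfl
    · intro h
      funext j i
      exact h i j
  have hlaw : law p σ = Measure.pi (fun i => Measure.pi (fun j => nu (p := p) σ i j)) := rfl
  rw [h, hlaw, measureReal_def, Measure.pi_pi, ENNReal.toReal_prod]
  simp_rw [Measure.pi_pi, ENNReal.toReal_prod, ← measureReal_def, nu_fib]
  rw [card_TT, Nat.cast_prod, Finset.prod_comm]
  simp_rw [Nat.cast_prod, Finset.prod_mul_distrib, Finset.prod_inv_distrib]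
  congr 1
  by_cases hY : ∀ j, Y j ∈ TT (ZMod (p ^ (M + 1))) σ j
  · rw [ind_true hY]
    apply Finset.prod_eq_one
    intro j _
    apply Finset.prod_eq_one
    intro i _
    exact ind_true (hY j i trivial)
  · rw [ind_false hY]
    push Not at hY
    obtain ⟨j, hj⟩ := hY
    have h2 : ∃ i, Y j i ∉ ss (ZMod (p ^ (M + 1))) σ i j := by
      by_contra hcon
      push Not at hcon
      exact hj (fun i _ => hcon i)
    obtain ⟨i, hi⟩ := h2
    apply Finset.prod_eq_zero (Finset.mem_univ j)
    apply Finset.prod_eq_zero (Finset.mem_univ i)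
    exact ind_false hi

lemma measurable_event (Ψ : (Fin n → Fr p M n) → Prop) :
    MeasurableSet {X : Fin n → Fin n → ℤ_[p] | Ψ (red M X)} := by
  classical
  have h1 : {X : Fin n → Fin n → ℤ_[p] | Ψ (red M X)} =
      ⋃ Y ∈ (Finset.univ.filter Ψ : Finset (Fin n → Fr p M n)), {X | red M X = Y} := by
    ext X; simp
  rw [h1]
  exact Finset.measurableSet_biUnion _ (fun Y _ => measurable_red M Y)

instance : IsProbabilityMeasure (law p σ) := by
  have hlaw : law p σ = Measure.pi (fun i => Measure.pi (fun j => nu (p := p) σ i j)) := rfl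
  rw [hlaw]
  infer_instance

/-- the law of the reduction -/
theorem law_event (Ψ : (Fin n → Fr p M n) → Prop) :
    (law p σ).real {X | Ψ (red M X)} = pr (TT (ZMod (p ^ (M + 1))) σ) Ψ := by
  classical
  have h1 : {X : Fin n → Fin n → ℤ_[p] | Ψ (red M X)} =
      ⋃ Y ∈ (Finset.univ.filter Ψ : Finset (Fin n → Fr p M n)), {X | red M X = Y} := by
    ext X; simp
  rw [h1, measureReal_biUnion_finset]
  · simp_rw [law_red]
    unfold pr
    rw [avg_ind, ← Finset.sum_mul, div_eq_mul_inv]
    congr 1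
    rw [sum_ind, Nat.cast_inj]
    apply Nat.card_congr
    exact ⟨fun Y => ⟨fun j => ⟨Y.1 j, Y.2.2 j⟩, (Finset.mem_filter.1 Y.2.1).2⟩,
      fun c => ⟨fun j => (c.1 j : Fin n → ZMod (p ^ (M + 1))),
        Finset.mem_filter.2 ⟨Finset.mem_univ _, c.2⟩, fun j => (c.1 j).2⟩,
      fun Y => rfl, fun c => rfl⟩
  · intro a _ b _ hab
    change Disjoint _ _
    rw [Set.disjoint_left]
    intro x hx hx'
    exact hab (hx.symm.trans hx')
  · intro a _
    exact measurable_red M a

end haar

end Q40.CL
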