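import Pool.Agent.Q40.CL.Core

set_option autoImplicit false

/-! The main inequality, continued. -/

namespace Q40.CL

open Finset

section ineq

variable {p : ℕ} [Fact p.Prime] (M m r : ℕ)

lemma prc_top_split {ι₁ ι₂ Q : Type*} [AddCommGroup Q] [Finite Q] [Finite ι₁] [Finite ι₂]
    (T : ι₁ ⊕ ι₂ → AddSubgroup Q) :
    prc T (fun K => K = ⊤) = avg (fun a : (i : ι₁) → T (Sum.inl i) =>
      gv (fun j => T (Sum.inr j)) (AddSubgroup.closure (Set.range (fun i => (a i : Q))))) := by
  rw [prc_sum]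
  apply avg_congr
  intro a
  unfold gv
  rw [prc_map]
  congr 1
  funext K
  exact propext (sup_top_iff _ _)

lemma prc_cok_split {ι₁ ι₂ Q : Type*} [AddCommGroup Q] [Finite Q] [Finite ι₁] [Finite ι₂]
    (T : ι₁ ⊕ ι₂ → AddSubgroup Q) (G : Type) [AddCommGroup G] :
    prc T (fun K => Nonempty (Q ⧸ K ≃+ G)) = avg (fun a : (i : ι₁) → T (Sum.inl i) =>
      cv (fun j => T (Sum.inr j)) G (AddSubgroup.closure (Set.range (fun i => (a i : Q))))) := by
  rw [prc_sum]
  apply avg_congr
  intro a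
  unfold cv
  rw [prc_map]
  congr 1
  funext K
  exact propext (quot_sup_iff _ _ _)

/-- the bound for the probability that the first columns are independent -/
lemma q_mul_PE_le (S : Fin m → AddSubgroup (Fr p M (m + r))) :
    qq p r * avg (fun a : (i : Fin m) → S i =>
      ind (EE p M r (AddSubgroup.closure (Set.range (fun i => (a i : Fr p M (m + r))))))) ≤
      qq p (m + r) := by
  let T : Fin m ⊕ Fin r → AddSubgroup (Fr p M (m + r)) := Sum.elim S (fun _ => ⊤)
  have h1 : prc T (fun K => K = ⊤) ≤ qq p (m + r) := by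
    rw [← prc_reindex finSumFinEquiv.symm T]
    exact prob_gen_le (Fact.out) (free_pow (m + r)) (card_free_quot (Nat.succ_pos M) (m + r)) _
  have h2 := prc_top_split T
  rw [h2] at h1
  refine le_trans (le_of_eq ?_) h1
  rw [← avg_mul]
  apply avg_congr
  intro a
  have hF : FF (fun _ : Fin r => (⊤ : AddSubgroup (Fr p M (m + r))))
      (AddSubgroup.closure (Set.range (fun i => (a i : Fr p M (m + r))))) := by
    intro j
    exact AddSubgroup.map_top_of_surjective _ (QuotientAddGroup.mk'_surjective _)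
  by_cases hE : EE p M r (AddSubgroup.closure (Set.range (fun i => (a i : Fr p M (m + r)))))
  · rw [ind_true hE, mul_one]
    exact (gv_full M r _ _ hE hF).symm
  · rw [ind_false hE, mul_zero]
    exact (gv_zero M m r _ _ hE).symm

lemma cv_nonneg {Q ι : Type*} [AddCommGroup Q] [Finite Q] [Finite ι] (T : ι → AddSubgroup Q)
    (G : Type) [AddCommGroup G] (H : AddSubgroup Q) : 0 ≤ cv T G H := by
  unfold cv prc; exact pr_nonneg _ _

lemma cv_le_one {Q ι : Type*} [AddCommGroup Q] [Finite Q] [Finite ι] (T : ι → AddSubgroup Q)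
    (G : Type) [AddCommGroup G] (H : AddSubgroup Q) : cv T G H ≤ 1 := by
  unfold cv prc; exact pr_le_one _ _

lemma fR_nonneg (G : Type) [AddCommGroup G] : 0 ≤ fR p M r G := by
  unfold fR prc; exact pr_nonneg _ _

lemma fR_le_one (G : Type) [AddCommGroup G] : fR p M r G ≤ 1 := by
  unfold fR prc; exact pr_le_one _ _

theorem main_ineq (T : Fin (m + (r + 1)) → AddSubgroup (Fr p M (m + (r + 1)))) (G : Type)
    [AddCommGroup G] :
    |prc T (fun K => Nonempty (Fr p M (m + (r + 1)) ⧸ K ≃+ G)) - fR p M (r + 1) G| ≤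
      1 - prc T (fun K => K = ⊤) / qq p (r + 1) +
      (qq p (m + (r + 1)) - prc T (fun K => K = ⊤)) /
        (qq p r * (((p : ℝ)⁻¹) ^ r - ((p : ℝ)⁻¹) ^ (r + 1))) := by
  have hp : p.Prime := Fact.out
  let T' : Fin m ⊕ Fin (r + 1) → AddSubgroup (Fr p M (m + (r + 1))) := fun i => T (finSumFinEquiv i)
  have e0 : prc T (fun K => K = ⊤) = prc T' (fun K => K = ⊤) := (prc_reindex finSumFinEquiv T _).symm
  have eG : prc T (fun K => Nonempty (Fr p M (m + (r + 1)) ⧸ K ≃+ G)) =
    prc T' (fun K => Nonempty (Fr p M (m + (r + 1)) ⧸ K ≃+ G)) := (prc_reindex finSumFinEquiv T _).symm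
  rw [e0, eG, prc_cok_split T' G]
  set P0 := prc T' (fun K => K = ⊤) with hP0
  let Hh : ((i : Fin m) → T' (Sum.inl i)) → AddSubgroup (Fr p M (m + (r + 1))) := fun a =>
    AddSubgroup.closure (Set.range (fun i => (a i : Fr p M (m + (r + 1)))))
  let S₂ : Fin (r + 1) → AddSubgroup (Fr p M (m + (r + 1))) := fun j => T' (Sum.inr j)
  let PE : ℝ := avg (fun a => ind (EE p M (r + 1) (Hh a)))
  let PF : ℝ := avg (fun a => ind (EE p M (r + 1) (Hh a) ∧ FF S₂ (Hh a)))
  set q := qq p (r + 1) with hq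
  set q' := qq p r * (1 - ((p : ℝ)⁻¹) ^ r) with hq'
  have hq0 : 0 < q := qq_pos hp _
  -- the gap
  have hgap : q - q' = qq p r * (((p : ℝ)⁻¹) ^ r - ((p : ℝ)⁻¹) ^ (r + 1)) := by
    rw [hq, hq', qq_succ]; ring
  have hinv : (p : ℝ)⁻¹ < 1 := inv_lt_one_of_one_lt₀ (by exact_mod_cast hp.one_lt)
  have hinv0 : 0 < (p : ℝ)⁻¹ := inv_pos.2 (by exact_mod_cast hp.pos)
  have hgap0 : 0 < q - q' := by
    rw [hgap]
    apply mul_pos (qq_pos hp _)
    rw [sub_pos, pow_succ]
    have := pow_pos hinv0 r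
    nlinarith
  -- first inequality
  have h1 : P0 ≤ q * PF + q' * (PE - PF) := by
    rw [hP0, prc_top_split T', ← avg_mul, ← avg_sub, ← avg_mul, ← avg_add]
    apply avg_mono
    intro a
    by_cases hE : EE p M (r + 1) (Hh a)
    · by_cases hF : FF S₂ (Hh a)
      · rw [ind_true hE, ind_true (⟨hE, hF⟩ : EE p M (r + 1) (Hh a) ∧ FF S₂ (Hh a)), sub_self,
          mul_zero, add_zero, mul_one]
        exact (gv_full M (r + 1) S₂ (Hh a) hE hF).le
      · rw [ind_true hE, ind_false (fun h : EE p M (r + 1) (Hh a) ∧ FF S₂ (Hh a) => hF h.2),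
          sub_zero, mul_zero, zero_add, mul_one]
        exact gv_lt M r S₂ (Hh a) hE hF
    · rw [ind_false hE, ind_false (fun h : EE p M (r + 1) (Hh a) ∧ FF S₂ (Hh a) => hE h.1),
          sub_zero, mul_zero, mul_zero, add_zero]
      exact (gv_zero M m (r + 1) S₂ _ hE).le
  have h2 : q * PE ≤ qq p (m + (r + 1)) := q_mul_PE_le M m (r + 1) _
  -- the inequality for the law of the cokernel
  have h3 : |avg (fun a => cv S₂ G (Hh a)) - fR p M (r + 1) G| ≤ 1 - PF := by
    have e1 : (1 : ℝ) - PF = avg (fun a =>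
        1 - ind (EE p M (r + 1) (Hh a) ∧ FF S₂ (Hh a))) := by
      rw [avg_sub, avg_const]
    have e2 : avg (fun a => cv S₂ G (Hh a)) - fR p M (r + 1) G =
        avg (fun a => cv S₂ G (Hh a) - fR p M (r + 1) G) := by
      rw [avg_sub, avg_const]
    rw [e1, e2, abs_le]
    have key : ∀ a, -(1 - ind (EE p M (r + 1) (Hh a) ∧ FF S₂ (Hh a))) ≤
        cv S₂ G (Hh a) - fR p M (r + 1) G ∧ cv S₂ G (Hh a) - fR p M (r + 1) G ≤
        1 - ind (EE p M (r + 1) (Hh a) ∧ FF S₂ (Hh a)) := by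
      intro a
      by_cases hEF : EE p M (r + 1) (Hh a) ∧ FF S₂ (Hh a)
      · rw [ind_true hEF, cv_full M (r + 1) S₂ G (Hh a) hEF.1 hEF.2]
        simp
      · rw [ind_false hEF]
        have a1 := cv_nonneg S₂ G (Hh a)
        have a2 := cv_le_one S₂ G (Hh a)
        have a3 := fR_nonneg (p := p) M (r + 1) G
        have a4 := fR_le_one (p := p) M (r + 1) G
        constructor <;> linarith
    constructor
    · have h := avg_mono (fun a => (key a).1)
      refine le_trans (le_of_eq ?_) h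
      have e3 : ∀ a, -(1 - ind (EE p M (r + 1) (Hh a) ∧ FF S₂ (Hh a))) =
        (-1) * (1 - ind (EE p M (r + 1) (Hh a) ∧ FF S₂ (Hh a))) := fun a => by ring
      simp_rw [e3]
      rw [avg_mul]
      ring
    · exact avg_mono (fun a => (key a).2)
  refine h3.trans ?_
  rw [← hgap]
  have h4 : PE - PF ≤ (qq p (m + (r + 1)) - P0) / (q - q') := by
    rw [le_div_iff₀ hgap0]
    nlinarith
  have hPN : 0 ≤ PE - PF := by
    change 0 ≤ avg _ - avg _
    rw [← avg_sub]
    apply avg_nonneg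
    intro a
    by_cases hE : EE p M (r + 1) (Hh a)
    · rw [ind_true hE, sub_nonneg]; exact ind_le_one _
    · rw [ind_false hE, ind_false (fun h : EE p M (r + 1) (Hh a) ∧ FF S₂ (Hh a) => hE h.1), sub_zero]
  have h5 : P0 / q ≤ PE := by
    rw [div_le_iff₀ hq0]
    nlinarith
  linarith

end ineq

end Q40.CL
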