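import Pool.Agent.Q40.CL.Gen

set_option autoImplicit false

/-! Homomorphisms from free modules over `ZMod m`. -/

namespace Q40.CL

open Finset

section lift

variable {ι : Type*} [Fintype ι] {Q : Type*} [AddCommGroup Q] (m : ℕ)

/-- the homomorphism sending `1` to `x` -/
def zl (x : Q) (hx : m • x = 0) : ZMod m →+ Q :=
  ZMod.lift m ⟨zmultiplesHom Q x, by simpa using hx⟩

lemma zl_one (x : Q) (hx : m • x = 0) : zl m x hx 1 = x := by
  have h := ZMod.lift_coe m (⟨zmultiplesHom Q x, by simpa using hx⟩ : {f : ℤ →+ Q // f m = 0}) 1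
  rw [Int.cast_one] at h
  unfold zl
  rw [h]
  simp

lemma zl_mem (x : Q) (hx : m • x = 0) (a : ZMod m) : zl m x hx a ∈ AddSubgroup.zmultiples x := by
  obtain ⟨z, rfl⟩ := ZMod.intCast_surjective a
  unfold zl
  rw [ZMod.lift_coe]
  exact ⟨z, rfl⟩

/-- the homomorphism sending the standard basis to the given tuple -/
def fl (c : ι → Q) (hc : ∀ i, m • c i = 0) : (ι → ZMod m) →+ Q :=
  ∑ i, (zl m (c i) (hc i)).comp (Pi.evalAddMonoidHom _ i)

lemma fl_apply (c : ι → Q) (hc : ∀ i, m • c i = 0) (v : ι → ZMod m) :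
    fl m c hc v = ∑ i, zl m (c i) (hc i) (v i) := by
  unfold fl
  rw [AddMonoidHom.finsetSum_apply]
  rfl

lemma fl_single [DecidableEq ι] (c : ι → Q) (hc : ∀ i, m • c i = 0) (i : ι) :
    fl m c hc (Pi.single i 1) = c i := by
  rw [fl_apply, Finset.sum_eq_single i]
  · rw [Pi.single_eq_same, zl_one]
  · intro j _ hj
    rw [Pi.single_eq_of_ne hj, map_zero]
  · intro h; exact absurd (Finset.mem_univ i) h

lemma fl_range (c : ι → Q) (hc : ∀ i, m • c i = 0) :
    (fl m c hc).range = AddSubgroup.closure (Set.range c) := by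
  classical
  apply le_antisymm
  · rintro _ ⟨v, rfl⟩
    rw [fl_apply]
    refine AddSubgroup.sum_mem _ (fun i _ => ?_)
    have h := zl_mem m (c i) (hc i) (v i)
    have h2 : AddSubgroup.zmultiples (c i) ≤ AddSubgroup.closure (Set.range c) := by
      rw [AddSubgroup.zmultiples_le]
      exact AddSubgroup.subset_closure ⟨i, rfl⟩
    exact h2 h
  · rw [AddSubgroup.closure_le]
    rintro _ ⟨i, rfl⟩
    exact ⟨Pi.single i 1, fl_single m c hc i⟩

lemma fl_ext {m : ℕ} {f g : (ι → ZMod m) →+ Q} [DecidableEq ι]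
    (h : ∀ i, f (Pi.single i 1) = g (Pi.single i 1)) : f = g := by
  apply AddMonoidHom.functions_ext'
  intro i
  have h1 : ∀ a : ZMod m, f (Pi.single i a) = g (Pi.single i a) := by
    intro a
    obtain ⟨z, rfl⟩ := ZMod.intCast_surjective a
    have e : (Pi.single i (z : ZMod m) : ι → ZMod m) = z • Pi.single i 1 := by
      rw [← Pi.single_smul]
      congr 1
      simp
    rw [e, map_zsmul, map_zsmul, h]
  ext a
  exact h1 _

variable [NeZero m]

lemma card_closure_le (c : ι → Q) (hc : ∀ i, m • c i = 0) :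
    Nat.card (AddSubgroup.closure (Set.range c)) ≤ m ^ Fintype.card ι := by
  rw [← fl_range m c hc]
  have h : Function.Surjective (fl m c hc).rangeRestrict := (fl m c hc).rangeRestrict_surjective
  have h1 := Nat.card_le_card_of_surjective _ h
  rw [Nat.card_fun, Nat.card_zmod, Nat.card_eq_fintype_card (α := ι)] at h1
  exact h1

end lift

end Q40.CL
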