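import Pool.Agent.Q40.CL.Elem

set_option autoImplicit false

/-! Generation of finite abelian `p`-groups by random elements. -/

namespace Q40.CL

open Finset

universe u

/-- the subgroup `p Q` -/
def pS (p : ℕ) (Q : Type*) [AddCommGroup Q] : AddSubgroup Q := (nsmulAddMonoidHom (α := Q) p).range

lemma mem_pS {p : ℕ} {Q : Type*} [AddCommGroup Q] (x : Q) : p • x ∈ pS p Q := ⟨x, rfl⟩

section basic

variable {Q : Type u} [AddCommGroup Q] {p N : ℕ}

lemma frattini (hN : ∀ x : Q, p ^ N • x = 0) (H : AddSubgroup Q) (h : H ⊔ pS p Q = ⊤) :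
    H = ⊤ := by
  have key : ∀ k : ℕ, ∀ x : Q, ∃ a ∈ H, ∃ y : Q, x = a + p ^ k • y := by
    intro k
    induction k with
    | zero =>
      intro x
      exact ⟨0, zero_mem _, x, by simp⟩
    | succ k ih =>
      intro x
      obtain ⟨a, ha, y, rfl⟩ := ih x
      have hy : y ∈ H ⊔ pS p Q := by rw [h]; trivial
      obtain ⟨b, hb, _, ⟨z, rfl⟩, rfl⟩ := AddSubgroup.mem_sup.1 hy
      refine ⟨a + p ^ k • b, add_mem ha (AddSubgroup.nsmul_mem _ hb _), z, ?_⟩
      change a + p ^ k • (b + p • z) = _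
      rw [nsmul_add, ← mul_nsmul', ← pow_succ, add_assoc]
  rw [eq_top_iff]
  intro x _
  obtain ⟨a, ha, y, rfl⟩ := key N x
  rw [hN, add_zero]
  exact ha

lemma quot_pS (y : Q ⧸ pS p Q) : p • y = 0 := by
  obtain ⟨x, rfl⟩ := QuotientAddGroup.mk_surjective y
  rw [← QuotientAddGroup.mk_nsmul]
  exact (QuotientAddGroup.eq_zero_iff _).2 (mem_pS x)

lemma gen_mod_iff {ι : Type*} (hN : ∀ x : Q, p ^ N • x = 0) (c : ι → Q) :
    Gen (fun i => QuotientAddGroup.mk' (pS p Q) (c i)) ↔ Gen c := by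
  rw [gen_map_iff _ (QuotientAddGroup.mk'_surjective _), QuotientAddGroup.ker_mk']
  constructor
  · intro h
    exact frattini hN _ h
  · intro h
    unfold Gen at h
    rw [h, top_sup_eq]

variable [Finite Q]

lemma pr_gen_mod {ι : Type*} [Finite ι] (hN : ∀ x : Q, p ^ N • x = 0) (T : ι → AddSubgroup Q) :
    pr T Gen = pr (fun i => (T i).map (QuotientAddGroup.mk' (pS p Q))) Gen := by
  rw [pr_map]
  exact pr_congr _ (fun c _ => (gen_mod_iff hN c).symm)

variable (hp : p.Prime) (hN : ∀ x : Q, p ^ N • x = 0)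

include hp hN

theorem prob_gen_le {n : ℕ} (hc : Nat.card (Q ⧸ pS p Q) = p ^ n) (T : Fin n → AddSubgroup Q) :
    pr T Gen ≤ qq p n := by
  rw [pr_gen_mod hN]
  exact pr_gen_le hp n quot_pS hc _

theorem prob_gen_lt {n : ℕ} (hc : Nat.card (Q ⧸ pS p Q) = p ^ (n + 1))
    (T : Fin (n + 1) → AddSubgroup Q) (j : Fin (n + 1)) (hj : T j ≠ ⊤) :
    pr T Gen ≤ qq p n * (1 - ((p : ℝ)⁻¹) ^ n) := by
  rw [pr_gen_mod hN]
  refine pr_gen_lt hp n quot_pS hc _ j (fun h => hj ?_)
  apply frattini hN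
  rw [eq_top_iff]
  intro x _
  have hx : QuotientAddGroup.mk' (pS p Q) x ∈ (T j).map (QuotientAddGroup.mk' (pS p Q)) := by
    rw [h]; trivial
  obtain ⟨y, hy, hxy⟩ := hx
  rw [show x = y + (-y + x) by abel]
  exact AddSubgroup.add_mem_sup hy (QuotientAddGroup.eq.1 hxy)

theorem prob_gen_top {n : ℕ} (hc : Nat.card (Q ⧸ pS p Q) = p ^ n) :
    pr (fun _ : Fin n => (⊤ : AddSubgroup Q)) Gen = qq p n := by
  rw [pr_gen_mod hN]
  simp_rw [AddSubgroup.map_top_of_surjective _ (QuotientAddGroup.mk'_surjective _)]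
  exact pr_gen_top hp n quot_pS hc

end basic

section free

variable {p : ℕ}

lemma card_quot_eq_torsion (Q : Type u) [AddCommGroup Q] [Finite Q] :
    Nat.card (Q ⧸ pS p Q) = Nat.card (nsmulAddMonoidHom (α := Q) p).ker := by
  have h1 := AddSubgroup.card_eq_card_quotient_mul_card_addSubgroup (pS p Q)
  have h2 := AddSubgroup.card_eq_card_quotient_mul_card_addSubgroup
    (nsmulAddMonoidHom (α := Q) p).ker
  have h3 : Nat.card (Q ⧸ (nsmulAddMonoidHom (α := Q) p).ker) = Nat.card (pS p Q) :=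
    Nat.card_congr (QuotientAddGroup.quotientKerEquivRange _).toEquiv
  rw [h3, mul_comm] at h2
  have h4 : 0 < Nat.card (pS p Q) := Nat.card_pos
  exact Nat.eq_of_mul_eq_mul_right h4 (h1.symm.trans h2)

variable {N : ℕ} (hN : 0 < N)

include hN

lemma card_free_quot [NeZero p] (R : ℕ) :
    Nat.card ((Fin R → ZMod (p ^ N)) ⧸ pS p (Fin R → ZMod (p ^ N))) = p ^ R := by
  have hd : p ∣ p ^ N := dvd_pow_self p hN.ne'
  let φ : (Fin R → ZMod (p ^ N)) →+ (Fin R → ZMod p) :=
    { toFun := fun v i => ZMod.castHom hd (ZMod p) (v i)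
      map_zero' := by funext i; exact map_zero (ZMod.castHom hd (ZMod p))
      map_add' := fun v w => by funext i; exact map_add (ZMod.castHom hd (ZMod p)) _ _ }
  have hs : Function.Surjective φ := by
    intro w
    have h : ∀ i, ∃ a : ZMod (p ^ N), ZMod.castHom hd (ZMod p) a = w i :=
      fun i => ZMod.castHom_surjective hd (w i)
    choose v hv using h
    exact ⟨v, funext hv⟩
  have hk : φ.ker = pS p (Fin R → ZMod (p ^ N)) := by
    ext v
    rw [AddMonoidHom.mem_ker]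
    constructor
    · intro h
      have h1 : ∀ i, ∃ a : ZMod (p ^ N), p • a = v i := by
        intro i
        have h2 : ZMod.castHom hd (ZMod p) (v i) = 0 := congrFun h i
        obtain ⟨z, hz⟩ := ZMod.intCast_surjective (v i)
        rw [← hz, map_intCast, ZMod.intCast_zmod_eq_zero_iff_dvd] at h2
        obtain ⟨k, hk⟩ := h2
        refine ⟨(k : ZMod (p ^ N)), ?_⟩
        rw [← hz, hk]
        push_cast
        rw [nsmul_eq_mul]
      choose a ha using h1
      exact ⟨a, funext ha⟩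
    · rintro ⟨a, rfl⟩
      funext i
      change ZMod.castHom hd (ZMod p) ((p • a) i) = 0
      rw [Pi.smul_apply, map_nsmul, nsmul_eq_mul, ZMod.natCast_self, zero_mul]
  rw [← hk, Nat.card_congr (QuotientAddGroup.quotientKerEquivOfSurjective φ hs).toEquiv,
    Nat.card_fun, Nat.card_zmod, Nat.card_eq_fintype_card, Fintype.card_fin]

/-- subgroups of a free module containing the `p`-torsion -/
lemma card_sub_quot [NeZero p] (R : ℕ) (L : AddSubgroup (Fin R → ZMod (p ^ N)))
    (hL : ∀ x, p • x = 0 → x ∈ L) : Nat.card (L ⧸ pS p L) = p ^ R := by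
  have : NeZero (p ^ N) := ⟨pow_ne_zero _ (NeZero.ne p)⟩
  rw [card_quot_eq_torsion, ← card_free_quot hN R, card_quot_eq_torsion]
  apply Nat.card_congr
  refine ⟨fun x => ⟨x.1.1, ?_⟩, fun x => ⟨⟨x.1, hL x.1 x.2⟩, ?_⟩, ?_, ?_⟩
  · exact congrArg Subtype.val x.2
  · exact Subtype.ext x.2
  · intro x; rfl
  · intro x; rfl

omit hN in
lemma free_pow (R : ℕ) (x : Fin R → ZMod (p ^ N)) : p ^ N • x = 0 := by
  funext i
  rw [Pi.smul_apply, nsmul_eq_mul, ZMod.natCast_self, zero_mul]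
  rfl

end free

end Q40.CL
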