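import Pool.Agent.Q40.CL.FW

set_option autoImplicit false

/-! Splitting the columns in two groups. -/

namespace Q40.CL

open Finset

/-- the probability that the subgroup generated by a random tuple satisfies `Φ` -/
noncomputable def prc {ι : Type*} {Q : Type*} [AddCommGroup Q] [Finite ι] [Finite Q]
    (T : ι → AddSubgroup Q) (Φ : AddSubgroup Q → Prop) : ℝ :=
  pr T (fun c => Φ (AddSubgroup.closure (Set.range c)))

section basic

variable {ι ι' : Type*} {Q Q' : Type*} [AddCommGroup Q] [AddCommGroup Q'] [Finite ι] [Finite ι']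
  [Finite Q] [Finite Q']

lemma prc_reindex (e : ι' ≃ ι) (T : ι → AddSubgroup Q) (Φ : AddSubgroup Q → Prop) :
    prc (fun i => T (e i)) Φ = prc T Φ := by
  unfold prc pr
  rw [← avg_equiv (Equiv.piCongrLeft (fun i => T i) e)]
  apply avg_congr
  intro c
  apply ind_congr
  have h : Set.range (fun i => (c i : Q)) =
      Set.range (fun i => (((Equiv.piCongrLeft (fun i => T i) e) c) i : Q)) := by
    ext x
    constructor
    · rintro ⟨i, rfl⟩
      exact ⟨e i, by
        change (((Equiv.piCongrLeft (fun i => T i) e) c) (e i) : Q) = _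
        rw [Equiv.piCongrLeft_apply_apply]⟩
    · rintro ⟨i, rfl⟩
      obtain ⟨i', rfl⟩ := e.surjective i
      refine ⟨i', ?_⟩
      change _ = (((Equiv.piCongrLeft (fun i => T i) e) c) (e i') : Q)
      rw [Equiv.piCongrLeft_apply_apply]
  beta_reduce
  rw [h]

lemma prc_sum (T : ι ⊕ ι' → AddSubgroup Q) (Φ : AddSubgroup Q → Prop) :
    prc T Φ = avg (fun a : (i : ι) → T (Sum.inl i) => prc (fun j => T (Sum.inr j))
      (fun K => Φ (AddSubgroup.closure (Set.range (fun i => (a i : Q))) ⊔ K))) := by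
  unfold prc pr
  rw [← avg_prod (fun x : ((i : ι) → T (Sum.inl i)) × ((j : ι') → T (Sum.inr j)) =>
    ind (Φ (AddSubgroup.closure (Set.range (fun i => (x.1 i : Q))) ⊔
      AddSubgroup.closure (Set.range (fun i => (x.2 i : Q)))))),
    ← avg_equiv (Equiv.sumPiEquivProdPi (fun i => T i))]
  apply avg_congr
  intro c
  apply ind_congr
  rw [← AddSubgroup.closure_union]
  have h : Set.range (fun i => (c i : Q)) =
      Set.range (fun i => (((Equiv.sumPiEquivProdPi (fun i => T i)) c).1 i : Q)) ∪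
      Set.range (fun i => (((Equiv.sumPiEquivProdPi (fun i => T i)) c).2 i : Q)) := by
    ext x
    constructor
    · rintro ⟨i | i, rfl⟩
      · exact Or.inl ⟨i, rfl⟩
      · exact Or.inr ⟨i, rfl⟩
    · rintro (⟨i, rfl⟩ | ⟨i, rfl⟩)
      · exact ⟨Sum.inl i, rfl⟩
      · exact ⟨Sum.inr i, rfl⟩
  beta_reduce
  rw [h]

lemma prc_map (φ : Q →+ Q') (T : ι → AddSubgroup Q) (Φ : AddSubgroup Q' → Prop) :
    prc (fun i => (T i).map φ) Φ = prc T (fun K => Φ (K.map φ)) := by
  unfold prc
  rw [pr_map]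
  apply pr_congr
  intro c _
  beta_reduce
  rw [AddMonoidHom.map_closure, ← Set.range_comp]
  rfl

lemma prc_equiv (e : Q ≃+ Q') (Φ : AddSubgroup Q' → Prop) :
    prc (fun _ : ι => (⊤ : AddSubgroup Q')) Φ =
      prc (fun _ : ι => (⊤ : AddSubgroup Q)) (fun K => Φ (K.map e.toAddMonoidHom)) := by
  rw [← prc_map]
  congr 1
  funext i
  exact (AddSubgroup.map_top_of_surjective _ e.surjective).symm

end basic

section quot

variable {W : Type*} [AddCommGroup W] (H K : AddSubgroup W) (G : Type*) [AddCommGroup G]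

lemma map_mk_sup : (H ⊔ K).map (QuotientAddGroup.mk' H) = K.map (QuotientAddGroup.mk' H) := by
  rw [AddSubgroup.map_sup, (AddSubgroup.map_eq_bot_iff _).2 (by rw [QuotientAddGroup.ker_mk']),
    bot_sup_eq]

lemma quot_sup_iff : Nonempty (W ⧸ (H ⊔ K) ≃+ G) ↔
    Nonempty ((W ⧸ H) ⧸ K.map (QuotientAddGroup.mk' H) ≃+ G) := by
  have e1 := QuotientAddGroup.quotientQuotientEquivQuotient H (H ⊔ K) le_sup_left
  have e2 : (W ⧸ H) ⧸ (H ⊔ K).map (QuotientAddGroup.mk' H) ≃+
      (W ⧸ H) ⧸ K.map (QuotientAddGroup.mk' H) :=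
    QuotientAddGroup.quotientAddEquivOfEq (map_mk_sup H K)
  constructor
  · rintro ⟨f⟩
    exact ⟨e2.symm.trans (e1.trans f)⟩
  · rintro ⟨f⟩
    exact ⟨e1.symm.trans (e2.trans f)⟩

lemma sup_top_iff : H ⊔ K = ⊤ ↔ K.map (QuotientAddGroup.mk' H) = ⊤ := by
  rw [← map_mk_sup]
  constructor
  · intro h
    rw [h]
    exact AddSubgroup.map_top_of_surjective _ (QuotientAddGroup.mk'_surjective H)
  · intro h
    have h1 := AddSubgroup.comap_map_eq (QuotientAddGroup.mk' H) (H ⊔ K)
    rw [h, AddSubgroup.comap_top, QuotientAddGroup.ker_mk', sup_comm (H ⊔ K), ← sup_assoc,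
      sup_idem] at h1
    exact h1.symm

end quot

end Q40.CL
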